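import Pool.Agent.Helper71.QP.Cone

/-!
# Cones over double planes branched along quartics: an invariant direction
-/

set_option autoImplicit false

namespace Pool.Agent.Helper71.QP

open Pool.Agent.Helper29.CQ Pool.Agent.Helper65.CC Pool.Agent.Helper87.CC
  Pool.Agent.Helper65.CC.KFn
open Pool.Agent.Helper9.QP
open Pool.Agent.Helper79.QP (InvQ)
open Pool.Agent.Helper71.PN
open Polynomial

variable {K : Type} [Field K] {G : ∀ (R : Type) [CommRing R] [Algebra K R], Prop}

/-- an isomorphism restricted to closed subfunctors -/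
def clsIso {F F' : KFn K} (e : Iso F F') (u : Coord F) (u' : Coord F')
    (h : ∀ {R : Type} [CommRing R] [Algebra K R] (x : F.obj R), u'.val (e.hom x) = u.val x) :
    Iso (F.cls u) (F'.cls u') where
  hom {R} _ _ x := ⟨e.hom x.1, (h x.1).trans x.2⟩
  inv {R} _ _ y := ⟨e.inv y.1, by
    change u.val (e.inv y.1) = 0
    rw [← h, e.hom_inv]
    exact y.2⟩
  inv_hom x := Subtype.ext (e.inv_hom x.1)
  hom_inv y := Subtype.ext (e.hom_inv y.1)
  nat f x := Subtype.ext (e.nat f x.1)

/-- the quadratic form as a function on the cone -/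
def qc (c : ℕ → ℕ → K) (q : Fin 6 → K) : Coord (CV c) :=
  ⟨fun x => qf q x.1.1 x.1.2.1 x.1.2.2.1, fun f x => by
    rw [qf_map]
    rfl⟩

/-- the base of the cone with an invariant direction -/
def EB (c : ℕ → ℕ → K) : KFn K :=
  (A3 K).cls ⟨fun x => x.2.2 ^ 2 - F4 c x.1 x.2.1 0, fun f x => by
    rw [map_sub, map_pow, F4_map, map_zero]
    rfl⟩

instance (c : ℕ → ℕ → K) : Rp (EB c) := by
  unfold EB
  infer_instance

theorem F4_inv {c : ℕ → ℕ → K} (h : Inv c ![0, 0, 1]) {R : Type} [CommRing R] [Algebra K R]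
    (x y z : R) : F4 c x y z = F4 c x y 0 := by
  have h1 := h R x y z (-z)
  change F4 c (x + -z * algebraMap K R 0) (y + -z * algebraMap K R 0)
    (z + -z * algebraMap K R 1) = F4 c x y z at h1
  rw [map_zero, map_one, mul_zero, add_zero, add_zero, mul_one, add_neg_cancel] at h1
  exact h1.symm

/-- the cone is the product of the base and a line -/
def CVline (c : ℕ → ℕ → K) (h : Inv c ![0, 0, 1]) : Iso (CV c) (EB c).line where
  hom {R} _ _ x := (⟨(x.1.1, x.1.2.1, x.1.2.2.2), by
    have h1 : x.1.2.2.2 ^ 2 - F4 c x.1.1 x.1.2.1 x.1.2.2.1 = 0 := x.2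
    rw [F4_inv h] at h1
    exact h1⟩, x.1.2.2.1)
  inv {R} _ _ y := ⟨(y.1.1.1, y.1.1.2.1, y.2, y.1.1.2.2), by
    change y.1.1.2.2 ^ 2 - F4 c y.1.1.1 y.1.1.2.1 y.2 = 0
    rw [F4_inv h]
    exact y.1.2⟩
  inv_hom _ := rfl
  hom_inv _ := rfl
  nat _ _ := rfl

/-- the first case: the quadratic form has a leading term in the invariant direction -/
theorem base_lead (h2 : (2 : K) ≠ 0) (hG : GOps K G) (c : ℕ → ℕ → K) (q : Fin 6 → K)
    (h : Inv c ![0, 0, 1]) (hq : q 5 ≠ 0) (hD : ((CV c).cls (qc c q)).Mem G) : (EB c).Mem G := by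
  let d : Coord (EB c) := ⟨fun {R} _ _ x =>
    (algebraMap K R (q 3) * x.1.1 + algebraMap K R (q 4) * x.1.2.1) ^ 2 -
      4 * algebraMap K R (q 5) * (algebraMap K R (q 0) * x.1.1 ^ 2 +
        algebraMap K R (q 1) * (x.1.1 * x.1.2.1) + algebraMap K R (q 2) * x.1.2.1 ^ 2),
    fun f x => by
      simp only [map_sub, map_add, map_mul, map_pow, map_ofNat, AlgHom.commutes]
      rfl⟩
  refine mem_of_dbl hG d (Mem.of_iso ?_ hD)
  have e1 : ∀ (R : Type) [CommRing R] [Algebra K R],
      (2 * algebraMap K R (q 5)) * algebraMap K R (2 * q 5)⁻¹ = 1 := fun R _ _ => by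
    have h3 : (2 : R) * algebraMap K R (q 5) = algebraMap K R (2 * q 5) := by
      rw [map_mul, map_ofNat]
    rw [h3, ← map_mul, mul_inv_cancel₀ (mul_ne_zero h2 hq), map_one]
  exact
    { hom := fun {R} _ _ x => ⟨⟨(x.1.1.1.1, x.1.1.1.2.1,
          (x.1.2 - (algebraMap K R (q 3) * x.1.1.1.1 + algebraMap K R (q 4) * x.1.1.1.2.1)) *
            algebraMap K R (2 * q 5)⁻¹, x.1.1.1.2.2), by
          change x.1.1.1.2.2 ^ 2 - F4 c x.1.1.1.1 x.1.1.1.2.1 _ = 0
          rw [F4_inv h]
          exact x.1.1.2⟩, by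
          have h3 : x.1.2 ^ 2 - ((algebraMap K R (q 3) * x.1.1.1.1 +
            algebraMap K R (q 4) * x.1.1.1.2.1) ^ 2 - 4 * algebraMap K R (q 5) *
            (algebraMap K R (q 0) * x.1.1.1.1 ^ 2 + algebraMap K R (q 1) *
            (x.1.1.1.1 * x.1.1.1.2.1) + algebraMap K R (q 2) * x.1.1.1.2.1 ^ 2)) = 0 := x.2
          have h4 := e1 R
          change qf q x.1.1.1.1 x.1.1.1.2.1 ((x.1.2 - (algebraMap K R (q 3) * x.1.1.1.1 +
            algebraMap K R (q 4) * x.1.1.1.2.1)) * algebraMap K R (2 * q 5)⁻¹) = 0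
          have hu : IsUnit (2 * (2 * algebraMap K R (q 5))) := by
            have h5 : (2 : R) = algebraMap K R 2 := (map_ofNat _ 2).symm
            rw [h5]
            exact (unit_const h2).mul ((unit_const h2).mul (unit_const hq))
          refine (hu.mul_right_eq_zero).1 ?_
          simp only [qf]
          set i := algebraMap K R (2 * q 5)⁻¹
          set L := algebraMap K R (q 3) * x.1.1.1.1 + algebraMap K R (q 4) * x.1.1.1.2.1 with hL
          linear_combination h3 + ((x.1.2 - L) ^ 2 * (2 * algebraMap K R (q 5) * i + 1) +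
            2 * (x.1.2 - L) * L) * h4⟩
      inv := fun {R} _ _ y => ⟨(⟨(y.1.1.1, y.1.1.2.1, y.1.1.2.2.2), by
          have h3 : y.1.1.2.2.2 ^ 2 - F4 c y.1.1.1 y.1.1.2.1 y.1.1.2.2.1 = 0 := y.1.2
          rw [F4_inv h] at h3
          exact h3⟩, 2 * algebraMap K R (q 5) * y.1.1.2.2.1 +
            (algebraMap K R (q 3) * y.1.1.1 + algebraMap K R (q 4) * y.1.1.2.1)), by
          have h3 : qf q y.1.1.1 y.1.1.2.1 y.1.1.2.2.1 = 0 := y.2
          change (2 * algebraMap K R (q 5) * y.1.1.2.2.1 +
            (algebraMap K R (q 3) * y.1.1.1 + algebraMap K R (q 4) * y.1.1.2.1)) ^ 2 -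
            ((algebraMap K R (q 3) * y.1.1.1 +
            algebraMap K R (q 4) * y.1.1.2.1) ^ 2 - 4 * algebraMap K R (q 5) *
            (algebraMap K R (q 0) * y.1.1.1 ^ 2 + algebraMap K R (q 1) *
            (y.1.1.1 * y.1.1.2.1) + algebraMap K R (q 2) * y.1.1.2.1 ^ 2)) = 0
          simp only [qf] at h3
          linear_combination 4 * algebraMap K R (q 5) * h3⟩
      inv_hom := fun {R} _ _ x => by
          have h4 := e1 R
          refine Subtype.ext (Prod.ext rfl ?_)
          change 2 * algebraMap K R (q 5) * ((x.1.2 - (algebraMap K R (q 3) * x.1.1.1.1 +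
            algebraMap K R (q 4) * x.1.1.1.2.1)) * algebraMap K R (2 * q 5)⁻¹) +
            (algebraMap K R (q 3) * x.1.1.1.1 + algebraMap K R (q 4) * x.1.1.1.2.1) = x.1.2
          linear_combination (x.1.2 - (algebraMap K R (q 3) * x.1.1.1.1 +
            algebraMap K R (q 4) * x.1.1.1.2.1)) * h4
      hom_inv := fun {R} _ _ y => by
          have h4 := e1 R
          refine Subtype.ext (Subtype.ext (Prod.ext rfl (Prod.ext rfl (Prod.ext ?_ rfl))))
          change (2 * algebraMap K R (q 5) * y.1.1.2.2.1 +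
            (algebraMap K R (q 3) * y.1.1.1 + algebraMap K R (q 4) * y.1.1.2.1) -
            (algebraMap K R (q 3) * y.1.1.1 + algebraMap K R (q 4) * y.1.1.2.1)) *
            algebraMap K R (2 * q 5)⁻¹ = y.1.1.2.2.1
          linear_combination y.1.1.2.2.1 * h4
      nat := fun {R S} _ _ _ _ f x => by
          refine Subtype.ext (Subtype.ext (Prod.ext rfl (Prod.ext rfl (Prod.ext ?_ rfl))))
          change f ((x.1.2 - (algebraMap K R (q 3) * x.1.1.1.1 +
            algebraMap K R (q 4) * x.1.1.1.2.1)) * algebraMap K R (2 * q 5)⁻¹) =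
            (f x.1.2 - (algebraMap K S (q 3) * f x.1.1.1.1 +
            algebraMap K S (q 4) * f x.1.1.1.2.1)) * algebraMap K S (2 * q 5)⁻¹
          simp only [map_sub, map_add, map_mul, AlgHom.commutes] }

theorem BC.cls_any [IsAlgClosed K] (hG : GOps K G) (h g : K[X]) (H : (BC h).Mem G) :
    ((BC h).cls (polyC (BC.x h) g)).Mem G := by
  by_cases hg : g = 0
  · subst hg
    refine Mem.of_iso (F' := BC h) ?_ H
    exact
      { hom := fun x => x.1
        inv := fun {R} _ _ y => ⟨y, by
          change aeval y.1.1 (0 : K[X]) = 0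
          rw [map_zero]⟩
        inv_hom := fun _ => rfl
        hom_inv := fun _ => rfl
        nat := fun _ _ => rfl }
  · exact mem_cls_poly hG.toKOps (BC h) (BC.x h) g hg (BC.fib hG h)

/-- the second case: the quadratic form is `r(x, y) + β x z` -/
theorem base_lin [IsAlgClosed K] (hG : GOps K G) (c : ℕ → ℕ → K) (q : Fin 6 → K)
    (h : Inv c ![0, 0, 1]) (hq5 : q 5 = 0) (hq4 : q 4 = 0) (hq3 : q 3 ≠ 0)
    (hD : ((CV c).cls (qc c q)).Mem G) : (EB c).Mem G := by
  obtain ⟨s, hs⟩ := IsAlgClosed.exists_pow_nat_eq (c 0 4) (n := 2) two_pos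
  have hBC : (BC (C (c 0 4) * X ^ 4)).Mem G := by
    have e1 : (C (c 0 4) * X ^ 4 : K[X]) = (C s * X ^ 2) ^ 2 := by
      rw [← hs, C_pow]
      ring
    rw [e1]
    exact BC.square hG _
  have ev : ∀ (R : Type) [CommRing R] [Algebra K R] (y : R),
      aeval y (C (c 0 4) * X ^ 4 : K[X]) = F4 c 0 y 0 := by
    intro R _ _ y
    simp only [map_mul, map_pow, aeval_C, aeval_X, F4]
    ring
  have ev2 : ∀ (R : Type) [CommRing R] [Algebra K R] (y : R),
      aeval y (C (q 2) * X ^ 2 : K[X]) = algebraMap K R (q 2) * y ^ 2 := by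
    intro R _ _ y
    simp only [map_mul, map_pow, aeval_C, aeval_X]
  have eq : ∀ (R : Type) [CommRing R] [Algebra K R] (x y z : R), qf q x y z =
      algebraMap K R (q 0) * x ^ 2 + algebraMap K R (q 1) * (x * y) +
        algebraMap K R (q 2) * y ^ 2 + algebraMap K R (q 3) * (x * z) := by
    intro R _ _ x y z
    simp only [qf, hq5, hq4, map_zero]
    ring
  let xB : Coord (EB c) := ⟨fun x => x.1.1, fun _ _ => rfl⟩
  let xD : Coord ((CV c).cls (qc c q)) := ⟨fun x => x.1.1.1, fun _ _ => rfl⟩
  have h0 : (((CV c).cls (qc c q)).cls xD).Mem G := by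
    refine Mem.of_iso ?_ (Mem.line hG.toKOps (BC.cls_any hG (C (c 0 4) * X ^ 4)
      (C (q 2) * X ^ 2) hBC))
    exact
      { hom := fun {R} _ _ x => (⟨⟨(x.1.1.1.2.1, x.1.1.1.2.2.2), by
            have h3 : x.1.1.1.2.2.2 ^ 2 - F4 c x.1.1.1.1 x.1.1.1.2.1 x.1.1.1.2.2.1 = 0 := x.1.1.2
            have h4 : x.1.1.1.1 = 0 := x.2
            rw [F4_inv h, h4] at h3
            change x.1.1.1.2.2.2 ^ 2 - aeval x.1.1.1.2.1 (C (c 0 4) * X ^ 4 : K[X]) = 0
            rw [ev]
            exact h3⟩, by
            have h3 : qf q x.1.1.1.1 x.1.1.1.2.1 x.1.1.1.2.2.1 = 0 := x.1.2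
            have h4 : x.1.1.1.1 = 0 := x.2
            rw [eq, h4] at h3
            change aeval x.1.1.1.2.1 (C (q 2) * X ^ 2 : K[X]) = 0
            rw [ev2]
            linear_combination h3⟩, x.1.1.1.2.2.1)
        inv := fun {R} _ _ y => ⟨⟨⟨(0, y.1.1.1.1, y.2, y.1.1.1.2), by
            have h3 : y.1.1.1.2 ^ 2 - aeval y.1.1.1.1 (C (c 0 4) * X ^ 4 : K[X]) = 0 := y.1.1.2
            rw [ev] at h3
            change y.1.1.1.2 ^ 2 - F4 c 0 y.1.1.1.1 y.2 = 0
            rw [F4_inv h]
            exact h3⟩, by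
            have h3 : aeval y.1.1.1.1 (C (q 2) * X ^ 2 : K[X]) = 0 := y.1.2
            rw [ev2] at h3
            change qf q 0 y.1.1.1.1 y.2 = 0
            rw [eq]
            linear_combination h3⟩, rfl⟩
        inv_hom := fun {R} _ _ x => by
            have h4 : x.1.1.1.1 = 0 := x.2
            exact Subtype.ext (Subtype.ext (Subtype.ext (Prod.ext h4.symm rfl)))
        hom_inv := fun _ => rfl
        nat := fun _ _ => rfl }
  have h1 : (((CV c).cls (qc c q)).opn xD).Mem G := mem_opn hG.toKOps xD hD h0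
  refine Mem.glue hG.toKOps xB (Mem.of_iso ?_ h1) (Mem.of_iso (F' := BC (C (c 0 4) * X ^ 4)) ?_
    hBC)
  · have e1 : ∀ (R : Type) [CommRing R] [Algebra K R],
        algebraMap K R (q 3) * algebraMap K R (q 3)⁻¹ = 1 := fun R _ _ => by
      rw [← map_mul, mul_inv_cancel₀ hq3, map_one]
    exact
      { hom := fun {R} _ _ x => ⟨⟨⟨(x.1.1.1, x.1.1.2.1, -(algebraMap K R (q 0) * x.1.1.1 ^ 2 +
            algebraMap K R (q 1) * (x.1.1.1 * x.1.1.2.1) + algebraMap K R (q 2) * x.1.1.2.1 ^ 2) *
            (algebraMap K R (q 3)⁻¹ * Ring.inverse x.1.1.1), x.1.1.2.2), by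
            change x.1.1.2.2 ^ 2 - F4 c x.1.1.1 x.1.1.2.1 _ = 0
            rw [F4_inv h]
            exact x.1.2⟩, by
            have h3 := mul_inv' (a := x.1.1.1) x.2
            have h4 := e1 R
            change qf q x.1.1.1 x.1.1.2.1 _ = 0
            rw [eq]
            set i := Ring.inverse x.1.1.1
            set j := algebraMap K R (q 3)⁻¹
            set r := algebraMap K R (q 0) * x.1.1.1 ^ 2 +
              algebraMap K R (q 1) * (x.1.1.1 * x.1.1.2.1) + algebraMap K R (q 2) * x.1.1.2.1 ^ 2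
            linear_combination (-r) * h3 - r * x.1.1.1 * i * h4⟩, x.2⟩
        inv := fun {R} _ _ y => ⟨⟨(y.1.1.1.1, y.1.1.1.2.1, y.1.1.1.2.2.2), by
            have h3 : y.1.1.1.2.2.2 ^ 2 - F4 c y.1.1.1.1 y.1.1.1.2.1 y.1.1.1.2.2.1 = 0 := y.1.1.2
            rw [F4_inv h] at h3
            exact h3⟩, y.2⟩
        inv_hom := fun _ => rfl
        hom_inv := fun {R} _ _ y => by
            have h3 := mul_inv' (a := y.1.1.1.1) y.2
            have h4 := e1 R
            have h5 : qf q y.1.1.1.1 y.1.1.1.2.1 y.1.1.1.2.2.1 = 0 := y.1.2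
            rw [eq] at h5
            refine Subtype.ext (Subtype.ext (Subtype.ext (Prod.ext rfl (Prod.ext rfl
              (Prod.ext ?_ rfl)))))
            change -(algebraMap K R (q 0) * y.1.1.1.1 ^ 2 +
              algebraMap K R (q 1) * (y.1.1.1.1 * y.1.1.1.2.1) +
              algebraMap K R (q 2) * y.1.1.1.2.1 ^ 2) *
              (algebraMap K R (q 3)⁻¹ * Ring.inverse y.1.1.1.1) = y.1.1.1.2.2.1
            set i := Ring.inverse y.1.1.1.1
            set j := algebraMap K R (q 3)⁻¹
            linear_combination (-(i * j)) * h5 + y.1.1.1.2.2.1 * y.1.1.1.1 * i * h4 +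
              y.1.1.1.2.2.1 * h3
        nat := fun {R S} _ _ _ _ f x => by
            have h3 := inv_nat f (a := x.1.1.1) x.2
            refine Subtype.ext (Subtype.ext (Subtype.ext (Prod.ext rfl (Prod.ext rfl
              (Prod.ext ?_ rfl)))))
            change f (-(algebraMap K R (q 0) * x.1.1.1 ^ 2 +
              algebraMap K R (q 1) * (x.1.1.1 * x.1.1.2.1) +
              algebraMap K R (q 2) * x.1.1.2.1 ^ 2) *
              (algebraMap K R (q 3)⁻¹ * Ring.inverse x.1.1.1)) =
              -(algebraMap K S (q 0) * (f x.1.1.1) ^ 2 +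
              algebraMap K S (q 1) * (f x.1.1.1 * f x.1.1.2.1) +
              algebraMap K S (q 2) * (f x.1.1.2.1) ^ 2) *
              (algebraMap K S (q 3)⁻¹ * Ring.inverse (f x.1.1.1))
            simp only [map_neg, map_add, map_mul, map_pow, AlgHom.commutes, h3] }
  · exact
      { hom := fun {R} _ _ x => ⟨(x.1.1.2.1, x.1.1.2.2), by
          have h3 : x.1.1.2.2 ^ 2 - F4 c x.1.1.1 x.1.1.2.1 0 = 0 := x.1.2
          have h4 : x.1.1.1 = 0 := x.2
          rw [h4] at h3
          change x.1.1.2.2 ^ 2 - aeval x.1.1.2.1 (C (c 0 4) * X ^ 4 : K[X]) = 0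
          rw [ev]
          exact h3⟩
        inv := fun {R} _ _ y => ⟨⟨(0, y.1.1, y.1.2), by
          have h3 : y.1.2 ^ 2 - aeval y.1.1 (C (c 0 4) * X ^ 4 : K[X]) = 0 := y.2
          rw [ev] at h3
          exact h3⟩, rfl⟩
        inv_hom := fun {R} _ _ x => by
          have h4 : x.1.1.1 = 0 := x.2
          exact Subtype.ext (Subtype.ext (Prod.ext h4.symm rfl))
        hom_inv := fun _ => rfl
        nat := fun _ _ => rfl }

/-- transport of the situation along a change of coordinates -/
theorem transport (c c' : ℕ → ℕ → K) (q q' : Fin 6 → K) (M N : Matrix (Fin 3) (Fin 3) K)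
    (h1 : M * N = 1) (h2 : N * M = 1)
    (h : ∀ (R : Type) [CommRing R] [Algebra K R] (x : R × R × R), Fv c (lv M x) = Fv c' x)
    (hq : ∀ (R : Type) [CommRing R] [Algebra K R] (x : R × R × R), Qv q (lv M x) = Qv q' x)
    (hD : ((CV c).cls (qc c q)).Mem G) (hm : ((CV c').cls (qc c' q')).Mem G → (CV c').Mem G) :
    (CV c).Mem G := by
  refine Mem.of_iso (CVi c c' M N h1 h2 h) (hm (Mem.of_iso
    (clsIso (CVi c c' M N h1 h2 h) (qc c q) (qc c' q') ?_).symm hD))
  intro R _ _ x
  change Qv q' (lv N (x.1.1, x.1.2.1, x.1.2.2.1)) = Qv q (x.1.1, x.1.2.1, x.1.2.2.1)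
  rw [← hq, lv_mul, h1, lv_one]

/-- **(C2)** the cone with a direction which is invariant for the quartic form and not for the
quadratic form -/
theorem cone_tr [IsAlgClosed K] (h2 : (2 : K) ≠ 0) (hG : GOps K G) (c : ℕ → ℕ → K)
    (q : Fin 6 → K) (v : Fin 3 → K) (hv : v ≠ 0) (h : Inv c v) (hq : ¬ InvQ q v)
    (hD : ((CV c).cls (qc c q)).Mem G) : (CV c).Mem G := by
  obtain ⟨M, N, h1, h1', hM⟩ := exists_mat v hv
  obtain ⟨c', hc'⟩ := exists_lin c M
  obtain ⟨q', hq'⟩ := exists_linQ q M
  have hlv : ∀ (R : Type) [CommRing R] [Algebra K R] (x y z t : R),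
      lv M (x, y, z + t) = ((lv M (x, y, z)).1 + t * algebraMap K R (v 0),
        (lv M (x, y, z)).2.1 + t * algebraMap K R (v 1),
        (lv M (x, y, z)).2.2 + t * algebraMap K R (v 2)) := by
    intro R _ _ x y z t
    refine Prod.ext ?_ (Prod.ext ?_ ?_)
    · simp only [lv, hM]
      ring
    · simp only [lv, hM]
      ring
    · simp only [lv, hM]
      ring
  have hinv : Inv c' ![0, 0, 1] := by
    intro R _ _ x y z t
    have h3 : Fv c' (x, y, z + t) = Fv c' (x, y, z) := by
      rw [← hc', ← hc', hlv]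
      exact h R _ _ _ t
    change F4 c' (x + t * algebraMap K R 0) (y + t * algebraMap K R 0)
      (z + t * algebraMap K R 1) = F4 c' x y z
    rw [map_zero, map_one, mul_zero, add_zero, add_zero, mul_one]
    exact h3
  refine transport c c' q q' M N h1 h1' hc' hq' hD fun hD' => ?_
  by_cases h5 : q' 5 = 0
  · by_cases h3 : q' 3 = 0
    · by_cases h4 : q' 4 = 0
      · exfalso
        apply hq
        intro R _ _ x y z t
        have e1 : ∀ w : R × R × R, ∀ t : R, Qv q' (w.1, w.2.1, w.2.2 + t) = Qv q' w := by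
          intro w t
          simp only [Qv, qf, h3, h4, h5, map_zero]
          ring
        have e2 : lv M (lv N (x, y, z)) = (x, y, z) := by rw [lv_mul, h1, lv_one]
        have e3 := hlv R (lv N (x, y, z)).1 (lv N (x, y, z)).2.1 (lv N (x, y, z)).2.2 t
        have e4 : Qv q (lv M ((lv N (x, y, z)).1, (lv N (x, y, z)).2.1,
            (lv N (x, y, z)).2.2 + t)) = Qv q (lv M (lv N (x, y, z))) := by
          rw [hq', hq', e1]
        rw [e3] at e4
        change Qv q ((lv M (lv N (x, y, z))).1 + t * algebraMap K R (v 0),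
          (lv M (lv N (x, y, z))).2.1 + t * algebraMap K R (v 1),
          (lv M (lv N (x, y, z))).2.2 + t * algebraMap K R (v 2)) =
          Qv q (lv M (lv N (x, y, z))) at e4
        rw [e2] at e4
        exact e4
      · -- swap the two coordinates
        let M' : Matrix (Fin 3) (Fin 3) K := !![0, 1, 0; 1, 0, 0; 0, 0, 1]
        have hM' : M' * M' = 1 := by
          ext i j
          fin_cases i <;> fin_cases j <;> simp [M', Matrix.mul_apply, Fin.sum_univ_three]
        have hl : ∀ (R : Type) [CommRing R] [Algebra K R] (x : R × R × R),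
            lv M' x = (x.2.1, x.1, x.2.2) := by
          intro R _ _ x
          refine Prod.ext ?_ (Prod.ext ?_ ?_) <;> simp [lv, M']
        obtain ⟨c'', hc''⟩ := exists_lin c' M'
        let q'' : Fin 6 → K := ![q' 2, q' 1, q' 0, q' 4, q' 3, q' 5]
        refine transport c' c'' q' q'' M' M' hM' hM' hc'' ?_ hD' fun hD'' => ?_
        · intro R _ _ x
          rw [hl]
          simp only [Qv, qf, q'', Matrix.cons_val]
          ring
        · have hinv' : Inv c'' ![0, 0, 1] := by
            intro R _ _ x y z t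
            have h6 := hinv R y x z t
            change F4 c' (y + t * algebraMap K R 0) (x + t * algebraMap K R 0)
              (z + t * algebraMap K R 1) = F4 c' y x z at h6
            have h7 : ∀ a b d : R, F4 c'' a b d = F4 c' b a d := by
              intro a b d
              have := hc'' R (a, b, d)
              rw [hl] at this
              exact this.symm
            change F4 c'' (x + t * algebraMap K R 0) (y + t * algebraMap K R 0)
              (z + t * algebraMap K R 1) = F4 c'' x y z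
            rw [h7, h7, h6]
          exact Mem.of_iso (CVline c'' hinv') (Mem.line hG.toKOps
            (base_lin hG c'' q'' hinv' h5 h3 h4 hD''))
    · -- shear
      let M' : Matrix (Fin 3) (Fin 3) K := !![1, -(q' 4 / q' 3), 0; 0, 1, 0; 0, 0, 1]
      let N' : Matrix (Fin 3) (Fin 3) K := !![1, q' 4 / q' 3, 0; 0, 1, 0; 0, 0, 1]
      have hM' : M' * N' = 1 := by
        ext i j
        fin_cases i <;> fin_cases j <;> simp [M', N', Matrix.mul_apply, Fin.sum_univ_three]
      have hN' : N' * M' = 1 := by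
        ext i j
        fin_cases i <;> fin_cases j <;> simp [M', N', Matrix.mul_apply, Fin.sum_univ_three]
      have hl : ∀ (R : Type) [CommRing R] [Algebra K R] (x : R × R × R),
          lv M' x = (x.1 - algebraMap K R (q' 4 / q' 3) * x.2.1, x.2.1, x.2.2) := by
        intro R _ _ x
        refine Prod.ext ?_ (Prod.ext ?_ ?_)
        · simp only [lv, M', Matrix.of_apply, Matrix.cons_val, map_one, map_neg, map_zero]
          ring
        · simp [lv, M']
        · simp [lv, M']
      obtain ⟨c'', hc''⟩ := exists_lin c' M'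
      let a : K := q' 4 / q' 3
      have ha : q' 3 * a = q' 4 := by
        rw [mul_comm]
        exact div_mul_cancel₀ _ h3
      let q'' : Fin 6 → K := ![q' 0, q' 1 - 2 * q' 0 * a, q' 2 - q' 1 * a + q' 0 * a ^ 2, q' 3, 0,
        q' 5]
      refine transport c' c'' q' q'' M' N' hM' hN' hc'' ?_ hD' fun hD'' => ?_
      · intro R _ _ x
        rw [hl]
        have ha' : algebraMap K R (q' 3) * algebraMap K R a = algebraMap K R (q' 4) := by
          rw [← map_mul, ha]
        change qf q' (x.1 - algebraMap K R a * x.2.1) x.2.1 x.2.2 = qf q'' x.1 x.2.1 x.2.2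
        simp only [qf, q'', Matrix.cons_val, map_sub, map_add, map_mul, map_pow, map_ofNat,
          map_zero, ← ha']
        ring
      · have hinv' : Inv c'' ![0, 0, 1] := by
          intro R _ _ x y z t
          have h7 : ∀ a b d : R, F4 c'' a b d = F4 c' (a - algebraMap K R (q' 4 / q' 3) * b) b d := by
            intro a b d
            have := hc'' R (a, b, d)
            rw [hl] at this
            exact this.symm
          change F4 c'' (x + t * algebraMap K R 0) (y + t * algebraMap K R 0)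
            (z + t * algebraMap K R 1) = F4 c'' x y z
          rw [h7, h7, map_zero, mul_zero, add_zero, add_zero, F4_inv hinv, ← F4_inv hinv _ _ z]
        exact Mem.of_iso (CVline c'' hinv') (Mem.line hG.toKOps
          (base_lin hG c'' q'' hinv' h5 rfl h3 hD''))
  · exact Mem.of_iso (CVline c' hinv) (Mem.line hG.toKOps (base_lead h2 hG c' q' hinv h5 hD'))

end Pool.Agent.Helper71.QP
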