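import Pool.Agent.Helper71.QP.Lin

/-!
# Cones over double planes branched along quartics: no invariant direction
-/

set_option autoImplicit false

namespace Pool.Agent.Helper71.QP

open Pool.Agent.Helper29.CQ Pool.Agent.Helper65.CC Pool.Agent.Helper87.CC
  Pool.Agent.Helper65.CC.KFn
open Pool.Agent.Helper9.QP
open Pool.Agent.Helper79.QP (InvQ)
open Pool.Agent.Helper71.PN
open Polynomial

variable {K : Type} [Field K] {G : ∀ (R : Type) [CommRing R] [Algebra K R], Prop}

/-- the scaling of the cone -/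
def CVs (c : ℕ → ℕ → K) : Sc (CV c) where
  sc u x := ⟨(u * x.1.1, u * x.1.2.1, u * x.1.2.2.1, u ^ 2 * x.1.2.2.2), by
    have h : x.1.2.2.2 ^ 2 - F4 c x.1.1 x.1.2.1 x.1.2.2.1 = 0 := x.2
    change ((u : _) ^ 2 * x.1.2.2.2) ^ 2 - F4 c (u * x.1.1) (u * x.1.2.1) (u * x.1.2.2.1) = 0
    rw [F4_smul]
    linear_combination (u : _) ^ 4 * h⟩
  one x := by
    apply Subtype.ext
    simp
  mul u v x := by
    apply Subtype.ext
    refine Prod.ext ?_ (Prod.ext ?_ (Prod.ext ?_ ?_))
    · exact mul_assoc _ _ _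
    · exact mul_assoc _ _ _
    · exact mul_assoc _ _ _
    · change ((u * v : _) ^ 2 : _) * x.1.2.2.2 = u ^ 2 * (v ^ 2 * x.1.2.2.2)
      rw [Units.val_pow_eq_pow_val, Units.val_mul]
      ring
  nat f u x := by
    apply Subtype.ext
    refine Prod.ext ?_ (Prod.ext ?_ (Prod.ext ?_ ?_))
    · exact map_mul f _ _
    · exact map_mul f _ _
    · exact map_mul f _ _
    · change f (u ^ 2 * x.1.2.2.2) = _
      rw [map_mul, map_pow]
      rfl

/-- the coordinate `z` -/
def CVz (c : ℕ → ℕ → K) : Coord (CV c) := ⟨fun x => x.1.2.2.1, fun _ _ => rfl⟩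

/-- the slice `z = 1` -/
def CVslice (c : ℕ → ℕ → K) : Iso ((CV c).cls (subC (CVz c) 1)) (V c) where
  hom {R} _ _ x := ⟨(x.1.1.1, x.1.1.2.1, x.1.1.2.2.2), by
    have h : x.1.1.2.2.2 ^ 2 - F4 c x.1.1.1 x.1.1.2.1 x.1.1.2.2.1 = 0 := x.1.2
    have h1 : x.1.1.2.2.1 - algebraMap K R 1 = 0 := x.2
    rw [map_one, sub_eq_zero] at h1
    rw [h1] at h
    exact h⟩
  inv {R} _ _ y := ⟨⟨(y.1.1, y.1.2.1, 1, y.1.2.2), y.2⟩, by
    change (1 : R) - algebraMap K R 1 = 0
    rw [map_one, sub_self]⟩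
  inv_hom {R} _ _ x := by
    have h1 : x.1.1.2.2.1 - algebraMap K R 1 = 0 := x.2
    rw [map_one, sub_eq_zero] at h1
    exact Subtype.ext (Subtype.ext (Prod.ext rfl (Prod.ext rfl (Prod.ext h1.symm rfl))))
  hom_inv _ := rfl
  nat _ _ := rfl

/-- the part at infinity: `u ^ 2 = y ^ 2 (a x ^ 2 + b x y + e y ^ 2)` in the space -/
def T3 (a b e : K) : KFn K :=
  (A3 K).cls ⟨fun {R} _ _ x => x.2.2 ^ 2 - x.2.1 ^ 2 * (algebraMap K R a * x.1 ^ 2 +
    algebraMap K R b * (x.1 * x.2.1) + algebraMap K R e * x.2.1 ^ 2), fun f x => by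
    simp only [map_sub, map_add, map_mul, map_pow, AlgHom.commutes]
    rfl⟩

instance (a b e : K) : Rp (T3 a b e) := by
  unfold T3
  infer_instance

/-- the scaling -/
def T3s (a b e : K) : Sc (T3 a b e) where
  sc {R} _ _ u x := ⟨(u * x.1.1, u * x.1.2.1, u ^ 2 * x.1.2.2), by
    have h : x.1.2.2 ^ 2 - x.1.2.1 ^ 2 * (algebraMap K R a * x.1.1 ^ 2 +
      algebraMap K R b * (x.1.1 * x.1.2.1) + algebraMap K R e * x.1.2.1 ^ 2) = 0 := x.2
    change ((u : R) ^ 2 * x.1.2.2) ^ 2 - ((u : R) * x.1.2.1) ^ 2 * (algebraMap K R a *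
      ((u : R) * x.1.1) ^ 2 + algebraMap K R b * (((u : R) * x.1.1) * ((u : R) * x.1.2.1)) +
      algebraMap K R e * ((u : R) * x.1.2.1) ^ 2) = 0
    linear_combination (u : R) ^ 4 * h⟩
  one x := by
    apply Subtype.ext
    simp
  mul u v x := by
    apply Subtype.ext
    refine Prod.ext ?_ (Prod.ext ?_ ?_)
    · exact mul_assoc _ _ _
    · exact mul_assoc _ _ _
    · change ((u * v : _) ^ 2 : _) * x.1.2.2 = u ^ 2 * (v ^ 2 * x.1.2.2)
      rw [Units.val_pow_eq_pow_val, Units.val_mul]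
      ring
  nat f u x := by
    apply Subtype.ext
    refine Prod.ext ?_ (Prod.ext ?_ ?_)
    · exact map_mul f _ _
    · exact map_mul f _ _
    · change f (u ^ 2 * x.1.2.2) = _
      rw [map_mul, map_pow]
      rfl

theorem mem_T3 [IsAlgClosed K] (hG : GOps K G) (a b e : K) : (T3 a b e).Mem G := by
  let y : Coord (T3 a b e) := ⟨fun x => x.1.2.1, fun _ _ => rfl⟩
  refine Sc.mem hG.toKOps (T3s a b e) y (fun u x => rfl) ?_ ?_
  · refine Mem.of_iso (F' := BC (C a * X ^ 2 + C b * X + C e)) ?_ (BC.deg_two hG _ ?_)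
    · have ev : ∀ (R : Type) [CommRing R] [Algebra K R] (x : R),
          aeval x (C a * X ^ 2 + C b * X + C e : K[X]) =
          algebraMap K R a * x ^ 2 + algebraMap K R b * x + algebraMap K R e := by
        intro R _ _ x
        simp only [map_add, map_mul, map_pow, aeval_C, aeval_X]
      exact
        { hom := fun {R} _ _ x => ⟨(x.1.1.1, x.1.1.2.2), by
            have h : x.1.1.2.2 ^ 2 - x.1.1.2.1 ^ 2 * (algebraMap K R a * x.1.1.1 ^ 2 +
              algebraMap K R b * (x.1.1.1 * x.1.1.2.1) + algebraMap K R e * x.1.1.2.1 ^ 2) = 0 :=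
              x.1.2
            have h1 : x.1.1.2.1 - algebraMap K R 1 = 0 := x.2
            rw [map_one, sub_eq_zero] at h1
            rw [h1] at h
            change x.1.1.2.2 ^ 2 - aeval x.1.1.1 (C a * X ^ 2 + C b * X + C e : K[X]) = 0
            rw [ev]
            linear_combination h⟩
          inv := fun {R} _ _ w => ⟨⟨(w.1.1, 1, w.1.2), by
            have h : w.1.2 ^ 2 - aeval w.1.1 (C a * X ^ 2 + C b * X + C e : K[X]) = 0 := w.2
            rw [ev] at h
            change w.1.2 ^ 2 - (1 : R) ^ 2 * (algebraMap K R a * w.1.1 ^ 2 +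
              algebraMap K R b * (w.1.1 * 1) + algebraMap K R e * 1 ^ 2) = 0
            linear_combination h⟩, by
            change (1 : R) - algebraMap K R 1 = 0
            rw [map_one, sub_self]⟩
          inv_hom := fun {R} _ _ x => by
            have h1 : x.1.1.2.1 - algebraMap K R 1 = 0 := x.2
            rw [map_one, sub_eq_zero] at h1
            exact Subtype.ext (Subtype.ext (Prod.ext rfl (Prod.ext h1.symm rfl)))
          hom_inv := fun _ => rfl
          nat := fun _ _ => rfl }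
    · exact natDegree_quadratic_le
  · let u : Coord ((T3 a b e).cls y) := ⟨fun x => x.1.1.2.2, fun _ _ => rfl⟩
    refine Mem.glue hG.toKOps u ?_ ?_
    · refine Mem.of_trivial hG.toKOps fun A _ _ x => ?_
      have h : x.1.1.1.2.2 ^ 2 - x.1.1.1.2.1 ^ 2 * (algebraMap K A a * x.1.1.1.1 ^ 2 +
        algebraMap K A b * (x.1.1.1.1 * x.1.1.1.2.1) + algebraMap K A e * x.1.1.1.2.1 ^ 2) = 0 :=
        x.1.1.2
      have h1 : x.1.1.1.2.1 = 0 := x.1.2
      have h2 : IsUnit x.1.1.1.2.2 := x.2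
      rw [h1] at h
      have h3 : x.1.1.1.2.2 ^ 2 = 0 := by linear_combination h
      have h4 := h2.pow 2
      rw [h3] at h4
      exact subsingleton_of_zero_eq_one (isUnit_zero_iff.1 h4)
    · refine Mem.of_iso (F' := A1 K) ?_ (mem_A1 hG)
      exact
        { hom := fun {R} _ _ x => (show R from x.1.1.1.1)
          inv := fun {R} _ _ w => ⟨⟨⟨((show R from w), 0, 0), by
            change (0 : R) ^ 2 - (0 : R) ^ 2 * (algebraMap K R a * (show R from w) ^ 2 +
              algebraMap K R b * ((show R from w) * 0) + algebraMap K R e * 0 ^ 2) = 0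
            ring⟩, rfl⟩, rfl⟩
          inv_hom := fun {R} _ _ x => by
            have h1 : x.1.1.1.2.1 = 0 := x.1.2
            have h2 : x.1.1.1.2.2 = 0 := x.2
            exact Subtype.ext (Subtype.ext (Subtype.ext (Prod.ext rfl
              (Prod.ext h1.symm h2.symm))))
          hom_inv := fun _ => rfl
          nat := fun _ _ => rfl }

/-- homogenisation of the invariance -/
theorem inv_of_cyl (c : ℕ → ℕ → K) (q₀ q₁ : K)
    (h : ∀ (R : Type) [CommRing R] [Algebra K R] (x y t : R),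
      F4 c (x + t * algebraMap K R q₀) (y + t * algebraMap K R q₁) 1 = F4 c x y 1) :
    Inv c ![q₀, q₁, 0] := by
  intro R _ _ x y z t
  let A := MvPolynomial (Fin 4) K
  let L := FractionRing A
  let i : A →ₐ[K] L := IsScalarTower.toAlgHom K A L
  have hi : Function.Injective i := IsFractionRing.injective A L
  let X0 : A := MvPolynomial.X 0
  let X1 : A := MvPolynomial.X 1
  let X2 : A := MvPolynomial.X 2
  let X3 : A := MvPolynomial.X 3
  have hz : i X2 ≠ 0 := fun h0 => MvPolynomial.X_ne_zero (R := K) (2 : Fin 4)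
    (hi (h0.trans (map_zero i).symm))
  have key : F4 c (X0 + X3 * algebraMap K A q₀) (X1 + X3 * algebraMap K A q₁) X2 =
      F4 c X0 X1 X2 := by
    apply hi
    rw [F4_map, F4_map]
    have h1 := h L (i X0 / i X2) (i X1 / i X2) (i X3 / i X2)
    have hcan : ∀ a : L, i X2 * (a / i X2) = a := fun a => by rw [mul_comm, div_mul_cancel₀ a hz]
    have e1 : i (X0 + X3 * algebraMap K A q₀) = i X2 * (i X0 / i X2 + i X3 / i X2 *
        algebraMap K L q₀) := by
      rw [map_add, map_mul, AlgHom.commutes, mul_add, ← mul_assoc, hcan, hcan]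
    have e2 : i (X1 + X3 * algebraMap K A q₁) = i X2 * (i X1 / i X2 + i X3 / i X2 *
        algebraMap K L q₁) := by
      rw [map_add, map_mul, AlgHom.commutes, mul_add, ← mul_assoc, hcan, hcan]
    have e3 : i X2 = i X2 * 1 := (mul_one _).symm
    have e4 : i X0 = i X2 * (i X0 / i X2) := (hcan _).symm
    have e5 : i X1 = i X2 * (i X1 / i X2) := (hcan _).symm
    calc F4 c (i (X0 + X3 * algebraMap K A q₀)) (i (X1 + X3 * algebraMap K A q₁)) (i X2)
        = F4 c (i X2 * (i X0 / i X2 + i X3 / i X2 * algebraMap K L q₀))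
          (i X2 * (i X1 / i X2 + i X3 / i X2 * algebraMap K L q₁)) (i X2 * 1) := by
          rw [e1, e2, mul_one]
      _ = F4 c (i X2 * (i X0 / i X2)) (i X2 * (i X1 / i X2)) (i X2 * 1) := by
          rw [F4_smul, F4_smul, h1]
      _ = F4 c (i X0) (i X1) (i X2) := by
          rw [← e4, ← e5, mul_one]
  let φ : A →ₐ[K] R := MvPolynomial.aeval ![x, y, z, t]
  have h2 := congrArg φ key
  rw [F4_map, F4_map, map_add, map_add, map_mul, map_mul, AlgHom.commutes, AlgHom.commutes] at h2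
  have f0 : φ X0 = x := MvPolynomial.aeval_X _ 0
  have f1 : φ X1 = y := MvPolynomial.aeval_X _ 1
  have f2 : φ X2 = z := MvPolynomial.aeval_X _ 2
  have f3 : φ X3 = t := MvPolynomial.aeval_X _ 3
  rw [f0, f1, f2, f3] at h2
  change F4 c (x + t * algebraMap K R q₀) (y + t * algebraMap K R q₁)
    (z + t * algebraMap K R 0) = F4 c x y z
  rw [map_zero, mul_zero, add_zero]
  exact h2

/-- the main case in good coordinates -/
theorem cone_good [IsAlgClosed K] (h2 : (2 : K) ≠ 0) (hG : GOps K G) (c : ℕ → ℕ → K)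
    (h40 : c 4 0 = 0) (h31 : c 3 1 = 0) (h : ∀ v : Fin 3 → K, v ≠ 0 → ¬ Inv c v) :
    (CV c).Mem G := by
  refine Sc.mem hG.toKOps (CVs c) (CVz c) (fun u x => rfl) ?_ ?_
  · refine Mem.of_iso (CVslice c) (geo_main h2 hG c ?_ ?_)
    · have e1 : bin4 (lead c) (X : K[X]) 1 = C (c 2 2) * X ^ 2 + C (c 1 3) * X + C (c 0 4) := by
        have e2 : lead c 4 = 0 := h40
        have e3 : lead c 3 = 0 := h31
        have e4 : lead c 0 = c 0 4 := rfl
        have e5 : lead c 1 = c 1 3 := rfl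
        have e6 : lead c 2 = c 2 2 := rfl
        simp only [bin4, e2, e3, e4, e5, e6, Polynomial.algebraMap_eq, map_zero]
        ring
      rw [e1]
      exact BC.deg_two hG _ natDegree_quadratic_le
    · rintro ⟨q₀, q₁, hq, hinv⟩
      refine h ![q₀, q₁, 0] ?_ (inv_of_cyl c q₀ q₁ hinv)
      intro h0
      rcases hq with hq | hq
      · exact hq (congrFun h0 0)
      · exact hq (congrFun h0 1)
  · refine Mem.of_iso (F' := T3 (c 2 2) (c 1 3) (c 0 4)) ?_ (mem_T3 hG _ _ _)
    have ev : ∀ (R : Type) [CommRing R] [Algebra K R] (x y : R), F4 c x y 0 =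
        y ^ 2 * (algebraMap K R (c 2 2) * x ^ 2 + algebraMap K R (c 1 3) * (x * y) +
          algebraMap K R (c 0 4) * y ^ 2) := by
      intro R _ _ x y
      simp only [F4, h40, h31, map_zero]
      ring
    exact
      { hom := fun {R} _ _ x => ⟨(x.1.1.1, x.1.1.2.1, x.1.1.2.2.2), by
          have h3 : x.1.1.2.2.2 ^ 2 - F4 c x.1.1.1 x.1.1.2.1 x.1.1.2.2.1 = 0 := x.1.2
          have h4 : x.1.1.2.2.1 = 0 := x.2
          rw [h4, ev] at h3
          exact h3⟩
        inv := fun {R} _ _ w => ⟨⟨(w.1.1, w.1.2.1, 0, w.1.2.2), by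
          change w.1.2.2 ^ 2 - F4 c w.1.1 w.1.2.1 0 = 0
          rw [ev]
          exact w.2⟩, rfl⟩
        inv_hom := fun {R} _ _ x => by
          have h4 : x.1.1.2.2.1 = 0 := x.2
          exact Subtype.ext (Subtype.ext (Prod.ext rfl (Prod.ext rfl (Prod.ext h4.symm rfl))))
        hom_inv := fun _ => rfl
        nat := fun _ _ => rfl }

theorem exists_isotropic [IsAlgClosed K] (c : ℕ → ℕ → K) :
    ∃ (M N : Matrix (Fin 3) (Fin 3) K) (c' : ℕ → ℕ → K), M * N = 1 ∧ N * M = 1 ∧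
      (∀ (R : Type) [CommRing R] [Algebra K R] (x : R × R × R), Fv c (lv M x) = Fv c' x) ∧
      c' 4 0 = 0 := by
  by_cases h0 : c 4 0 = 0
  · exact ⟨1, 1, c, mul_one _, mul_one _, fun R _ _ x => by rw [lv_one], h0⟩
  · let q : K[X] := F4 c (X : K[X]) 1 0
    have hq4 : q.coeff 4 = c 4 0 := by
      simp [q, F4, coeff_X, coeff_one, Polynomial.algebraMap_eq, mul_assoc]
    have hq : q.degree ≠ 0 := by
      intro hd
      have h1 := eq_C_of_degree_eq_zero hd
      rw [h1, coeff_C] at hq4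
      exact h0 (by simpa using hq4.symm)
    obtain ⟨s, hs⟩ := IsAlgClosed.exists_root q hq
    obtain ⟨c', hc'⟩ := exists_lin c (!![s, 1, 0; 1, 0, 0; 0, 0, 1] : Matrix (Fin 3) (Fin 3) K)
    refine ⟨!![s, 1, 0; 1, 0, 0; 0, 0, 1], !![0, 1, 0; 1, -s, 0; 0, 0, 1], c', ?_, ?_, hc', ?_⟩
    · ext i j
      fin_cases i <;> fin_cases j <;> simp [Matrix.mul_apply, Fin.sum_univ_three]
    · ext i j
      fin_cases i <;> fin_cases j <;> simp [Matrix.mul_apply, Fin.sum_univ_three]
    · have h1 := hc' K (1, 0, 0)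
      have h2 : Fv c' ((1, 0, 0) : K × K × K) = c' 4 0 := by simp [Fv, F4]
      have h3 : lv (!![s, 1, 0; 1, 0, 0; 0, 0, 1] : Matrix (Fin 3) (Fin 3) K)
          ((1, 0, 0) : K × K × K) = (s, 1, 0) := by simp [lv]
      have h4 : q.eval s = F4 c s 1 0 := by
        have h5 := F4_map c (aeval s : K[X] →ₐ[K] K) (X : K[X]) 1 0
        rw [aeval_X, map_one, map_zero] at h5
        exact h5
      rw [← h2, ← h1, h3]
      exact h4.symm.trans hs

theorem coeff31 (c : ℕ → ℕ → K) (a b : K) {R : Type} [CommRing R] [Algebra K R] (e : R)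
    (he : e ^ 2 = 0) : F4 c 1 (algebraMap K R a * e) (algebraMap K R b * e) =
      algebraMap K R (c 4 0) + algebraMap K R (c 3 1 * a + c 3 0 * b) * e := by
  have e3 : e ^ 3 = 0 := by
    calc e ^ 3 = e ^ 2 * e := by ring
      _ = 0 := by rw [he, zero_mul]
  have e4 : e ^ 4 = 0 := by
    calc e ^ 4 = e ^ 2 * e ^ 2 := by ring
      _ = 0 := by rw [he, zero_mul]
  simp only [F4, map_add, map_mul]
  ring_nf
  simp only [he, e3, e4]
  ring

/-- coordinates in which the quartic is tangent to the line `z = 0` -/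
theorem exists_tangent [IsAlgClosed K] (c : ℕ → ℕ → K) :
    ∃ (M N : Matrix (Fin 3) (Fin 3) K) (c' : ℕ → ℕ → K), M * N = 1 ∧ N * M = 1 ∧
      (∀ (R : Type) [CommRing R] [Algebra K R] (x : R × R × R), Fv c (lv M x) = Fv c' x) ∧
      c' 4 0 = 0 ∧ c' 3 1 = 0 := by
  obtain ⟨M, N, c₁, h1, h1', hc₁, h40⟩ := exists_isotropic c
  by_cases h0 : c₁ 3 1 = 0
  · exact ⟨M, N, c₁, h1, h1', hc₁, h40, h0⟩
  have key : ∀ w₁ w₂ : K, c₁ 3 0 * w₂ + c₁ 3 1 * w₁ ≠ 0 →
      ∃ (M N : Matrix (Fin 3) (Fin 3) K) (c' : ℕ → ℕ → K), M * N = 1 ∧ N * M = 1 ∧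
      (∀ (R : Type) [CommRing R] [Algebra K R] (x : R × R × R), Fv c (lv M x) = Fv c' x) ∧
      c' 4 0 = 0 ∧ c' 3 1 = 0 := by
    intro w₁ w₂ hw
    let M' : Matrix (Fin 3) (Fin 3) K := !![1, 0, 0; 0, c₁ 3 0, w₁; 0, -c₁ 3 1, w₂]
    have hu : IsUnit M'.det := by
      rw [isUnit_iff_ne_zero, Matrix.det_fin_three]
      simpa [M', mul_comm w₁] using hw
    obtain ⟨c₂, hc₂⟩ := exists_lin c₁ M'
    refine ⟨M * M', M'⁻¹ * N, c₂, ?_, ?_, ?_, ?_, ?_⟩
    · rw [Matrix.mul_assoc, ← Matrix.mul_assoc M', Matrix.mul_nonsing_inv M' hu, Matrix.one_mul, h1]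
    · rw [Matrix.mul_assoc, ← Matrix.mul_assoc N, h1', Matrix.one_mul, Matrix.nonsing_inv_mul M' hu]
    · intro R _ _ x
      rw [← lv_mul, hc₁, hc₂]
    · have h3 := hc₂ K (1, 0, 0)
      have h4 : lv M' ((1, 0, 0) : K × K × K) = (1, 0, 0) := by simp [lv, M']
      rw [h4] at h3
      have h5 : ∀ c : ℕ → ℕ → K, Fv c ((1, 0, 0) : K × K × K) = c 4 0 := by
        intro c
        simp [Fv, F4]
      rw [h5, h5] at h3
      rw [← h3, h40]
    · have h3 := hc₂ (DualNumber K) (1, DualNumber.eps, 0)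
      have he : (DualNumber.eps : DualNumber K) ^ 2 = 0 := by
        rw [pow_two]
        exact DualNumber.eps_mul_eps
      have h4 : lv M' ((1, DualNumber.eps, 0) : DualNumber K × DualNumber K × DualNumber K) =
          (1, algebraMap K (DualNumber K) (c₁ 3 0) * DualNumber.eps,
            algebraMap K (DualNumber K) (-c₁ 3 1) * DualNumber.eps) := by
        simp [lv, M']
      have h5 : Fv c₂ ((1, DualNumber.eps, 0) : DualNumber K × DualNumber K × DualNumber K) =
          algebraMap K (DualNumber K) (c₂ 4 0) + algebraMap K (DualNumber K) (c₂ 3 1 * 1 +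
            c₂ 3 0 * 0) * DualNumber.eps := by
        rw [← coeff31 c₂ 1 0 _ he, map_one, map_zero, one_mul, zero_mul]
        rfl
      rw [h4, h5] at h3
      have h6 : Fv c₁ ((1, algebraMap K (DualNumber K) (c₁ 3 0) * DualNumber.eps,
          algebraMap K (DualNumber K) (-c₁ 3 1) * DualNumber.eps) :
          DualNumber K × DualNumber K × DualNumber K) = _ := coeff31 c₁ _ _ _ he
      rw [h6] at h3
      have h7 := congrArg TrivSqZeroExt.snd h3
      have h8 : ∀ a b : K, TrivSqZeroExt.snd (algebraMap K (DualNumber K) a +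
          algebraMap K (DualNumber K) b * DualNumber.eps) = b := by
        intro a b
        simp [TrivSqZeroExt.algebraMap_eq_inl]
      rw [h8, h8] at h7
      linear_combination -h7
  by_cases hb : c₁ 3 0 = 0
  · exact key 1 0 (by simpa using h0)
  · exact key 0 1 (by simpa using hb)

/-- **(C1)** if no direction is invariant then the cone is in the class. -/
theorem cone_mem [IsAlgClosed K] (h2 : (2 : K) ≠ 0) (hG : GOps K G) (c : ℕ → ℕ → K)
    (h : ∀ v : Fin 3 → K, v ≠ 0 → ¬ Inv c v) : (CV c).Mem G := by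
  obtain ⟨M, N, c', h1, h1', hc', h40, h31⟩ := exists_tangent c
  refine Mem.of_iso (CVi c c' M N h1 h1' hc') (cone_good h2 hG c' h40 h31 ?_)
  intro v hv hi
  refine h _ ?_ (inv_lin h1 hc' v hi)
  intro h0
  apply hv
  have h3 : M.mulVec v = 0 := by
    funext i
    have := congrFun h0 i
    simpa [Matrix.mulVec, dotProduct, Fin.sum_univ_three] using this
  have h4 : (N * M).mulVec v = 0 := by rw [← Matrix.mulVec_mulVec, h3, Matrix.mulVec_zero]
  rwa [h1', Matrix.one_mulVec] at h4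

end Pool.Agent.Helper71.QP
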