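import Pool.Agent.Helper71.PN.Isog
import Pool.Agent.Helper71.QP.Trans

/-!
# Additive covers of the plane: the fibration
-/

set_option autoImplicit false

namespace Pool.Agent.Helper71.QP

open Pool.Agent.Helper29.CQ Pool.Agent.Helper65.CC Pool.Agent.Helper87.CC
  Pool.Agent.Helper65.CC.KFn
open Pool.Agent.Helper9.QP
open Pool.Agent.Helper71.PN
open Polynomial

/-- the complement of the cone over the conic -/
def LG {K : Type} [Field K] (q : Fin 6 → K) : KFn K :=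
  (A3 K).opn ⟨fun x => qf q x.1 x.2.1 x.2.2, fun f x => by
    rw [qf_map]
    rfl⟩

instance {K : Type} [Field K] (q : Fin 6 → K) : Rp (LG q) := by
  unfold LG
  infer_instance

/-- the function `F / G ^ 2` -/
noncomputable def aLG {K : Type} [Field K] (c : ℕ → ℕ → K) (q : Fin 6 → K) : Coord (LG q) where
  val x := F4 c x.1.1 x.1.2.1 x.1.2.2 * Ring.inverse (qf q x.1.1 x.1.2.1 x.1.2.2) ^ 2
  nat f x := by
    have h1 : IsUnit (qf q x.1.1 x.1.2.1 x.1.2.2) := x.2
    rw [map_mul, map_pow, inv_nat f h1, F4_map, qf_map]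
    rfl

/-- the cone over the affine cover `G(x, y, z) ^ 2 φ(w) = F(x, y, z)` -/
noncomputable def XC {K : Type} [Field K] (c : ℕ → ℕ → K) (q : Fin 6 → K) (φ : K[X]) : KFn K :=
  rootF (LG q) (aLG c q) φ

instance {K : Type} [Field K] (c : ℕ → ℕ → K) (q : Fin 6 → K) (φ : K[X]) : Rp (XC c q φ) := by
  unfold XC
  infer_instance

/-- the members of the pencil -/
def pen {K : Type} [Field K] (c : ℕ → ℕ → K) (q : Fin 6 → K) (a b : K) : ℕ → ℕ → K := fun i j =>
  a * sqc q i j + b * c i j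

theorem F4_pen {K : Type} [Field K] (c : ℕ → ℕ → K) (q : Fin 6 → K) (a b : K) {R : Type}
    [CommRing R] [Algebra K R] (x y z : R) : F4 (pen c q a b) x y z =
      algebraMap K R a * qf q x y z ^ 2 + algebraMap K R b * F4 c x y z := by
  rw [← F4_sqc]
  simp only [F4, pen, map_add, map_mul]
  ring

variable {k : Type} [Field k]

theorem F4_rs {K : Type} [Field K] [Algebra k K] (c : ℕ → ℕ → k) {R : Type} [CommRing R]
    [Algebra K R] (x y z : R) :
    @F4 k _ R _ (rsA k K R) c x y z = F4 (fun i j => algebraMap k K (c i j)) x y z := rfl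

theorem qf_rs {K : Type} [Field K] [Algebra k K] (q : Fin 6 → k) {R : Type} [CommRing R]
    [Algebra K R] (x y z : R) :
    @qf k _ R _ (rsA k K R) q x y z = qf (fun i => algebraMap k K (q i)) x y z := rfl

theorem aeval_rs {K : Type} [Field K] [Algebra k K] {R : Type} [CommRing R]
    [Algebra K R] (τ : K) (φ : k[X]) :
    @aeval k R _ _ (rsA k K R) (algebraMap K R τ) φ = algebraMap K R (aeval τ φ) := by
  letI : Algebra k R := rsA k K R
  have : IsScalarTower k K R := IsScalarTower.of_algebraMap_eq fun _ => rfl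
  exact aeval_algebraMap_apply (A := K) R τ φ

theorem wild_rel {R : Type} [CommRing R] {g v f t : R} (hg : IsUnit g) :
    (g * v) ^ 2 - (-t * g ^ 2 + 1 * f) = 0 ↔ v ^ 2 - (f * Ring.inverse g ^ 2 - t) = 0 := by
  have h1 : g * Ring.inverse g = 1 := Ring.mul_inverse_cancel _ hg
  constructor
  · intro h
    linear_combination (Ring.inverse g ^ 2) * h +
      (-(v ^ 2 + t) * (g * Ring.inverse g + 1)) * h1
  · intro h
    linear_combination g ^ 2 * h + (f * (g * Ring.inverse g + 1)) * h1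

/-- the fibre over a point of the `ζ`-line -/
noncomputable def wildFib (c : ℕ → ℕ → k) (q : Fin 6 → k) (φ : k[X]) (K : Type) [Field K]
    [Algebra k K] (τ : K) :
    Iso (fibK (dbl (LG q).line (dA (aLG c q) φ)) ⟨fun x => x.1.1.2, fun _ _ => rfl⟩ K τ)
      ((CV (pen (fun i j => algebraMap k K (c i j)) (fun i => algebraMap k K (q i))
        (-aeval τ φ) 1)).opn (qc _ (fun i => algebraMap k K (q i)))) where
  hom {R} _ _ x := ⟨⟨(x.1.1.1.1.1.1, x.1.1.1.1.1.2.1, x.1.1.1.1.1.2.2,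
      qf (fun i => algebraMap k K (q i)) x.1.1.1.1.1.1 x.1.1.1.1.1.2.1 x.1.1.1.1.1.2.2 *
        x.1.1.2), by
        have h1 : IsUnit (qf (fun i => algebraMap k K (q i)) x.1.1.1.1.1.1 x.1.1.1.1.1.2.1
          x.1.1.1.1.1.2.2) := x.1.1.1.1.2
        have h2 : x.1.1.2 ^ 2 - (F4 (fun i j => algebraMap k K (c i j)) x.1.1.1.1.1.1
          x.1.1.1.1.1.2.1 x.1.1.1.1.1.2.2 *
          Ring.inverse (qf (fun i => algebraMap k K (q i)) x.1.1.1.1.1.1 x.1.1.1.1.1.2.1
            x.1.1.1.1.1.2.2) ^ 2 - @aeval k R _ _ (rsA k K R) x.1.1.1.2 φ) = 0 := x.1.2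
        have h3 : x.1.1.1.2 = algebraMap K R τ := x.2
        rw [h3, aeval_rs] at h2
        have h4 := (wild_rel h1).2 h2
        change (_ * x.1.1.2) ^ 2 - F4 (pen _ _ _ _) _ _ _ = 0
        rw [F4_pen, map_neg, map_one]
        exact h4⟩, x.1.1.1.1.2⟩
  inv {R} _ _ y := ⟨⟨((⟨(y.1.1.1, y.1.1.2.1, y.1.1.2.2.1), y.2⟩, algebraMap K R τ),
      y.1.1.2.2.2 * Ring.inverse (qf (fun i => algebraMap k K (q i)) y.1.1.1 y.1.1.2.1
        y.1.1.2.2.1)), by
      have h1 : IsUnit (qf (fun i => algebraMap k K (q i)) y.1.1.1 y.1.1.2.1 y.1.1.2.2.1) := y.2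
      have h2 : y.1.1.2.2.2 ^ 2 - F4 (pen (fun i j => algebraMap k K (c i j))
        (fun i => algebraMap k K (q i)) (-aeval τ φ) 1) y.1.1.1 y.1.1.2.1 y.1.1.2.2.1 = 0 := y.1.2
      rw [F4_pen, map_neg, map_one] at h2
      have h3 := Ring.mul_inverse_cancel _ h1
      change (y.1.1.2.2.2 * Ring.inverse (qf (fun i => algebraMap k K (q i)) y.1.1.1 y.1.1.2.1
        y.1.1.2.2.1)) ^ 2 - (F4 (fun i j => algebraMap k K (c i j)) y.1.1.1 y.1.1.2.1
        y.1.1.2.2.1 * Ring.inverse (qf (fun i => algebraMap k K (q i)) y.1.1.1 y.1.1.2.1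
        y.1.1.2.2.1) ^ 2 - @aeval k R _ _ (rsA k K R) (algebraMap K R τ) φ) = 0
      rw [aeval_rs]
      refine (wild_rel h1).1 ?_
      set g := qf (fun i => algebraMap k K (q i)) y.1.1.1 y.1.1.2.1 y.1.1.2.2.1
      linear_combination h2 + (y.1.1.2.2.2 ^ 2 * (g * Ring.inverse g + 1)) * h3⟩, rfl⟩
  inv_hom {R} _ _ x := by
    have h1 : IsUnit (qf (fun i => algebraMap k K (q i)) x.1.1.1.1.1.1 x.1.1.1.1.1.2.1
      x.1.1.1.1.1.2.2) := x.1.1.1.1.2
    have h3 : x.1.1.1.2 = algebraMap K R τ := x.2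
    refine Subtype.ext (Subtype.ext (Prod.ext (Prod.ext rfl h3.symm) ?_))
    change qf (fun i => algebraMap k K (q i)) x.1.1.1.1.1.1 x.1.1.1.1.1.2.1
      x.1.1.1.1.1.2.2 * x.1.1.2 * Ring.inverse (qf (fun i => algebraMap k K (q i)) x.1.1.1.1.1.1
      x.1.1.1.1.1.2.1 x.1.1.1.1.1.2.2) = x.1.1.2
    have h4 := Ring.mul_inverse_cancel _ h1
    linear_combination x.1.1.2 * h4
  hom_inv {R} _ _ y := by
    have h1 : IsUnit (qf (fun i => algebraMap k K (q i)) y.1.1.1 y.1.1.2.1 y.1.1.2.2.1) := y.2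
    refine Subtype.ext (Subtype.ext (Prod.ext rfl (Prod.ext rfl (Prod.ext rfl ?_))))
    change qf (fun i => algebraMap k K (q i)) y.1.1.1 y.1.1.2.1 y.1.1.2.2.1 * (y.1.1.2.2.2 *
      Ring.inverse (qf (fun i => algebraMap k K (q i)) y.1.1.1 y.1.1.2.1 y.1.1.2.2.1)) =
      y.1.1.2.2.2
    have h4 := Ring.mul_inverse_cancel _ h1
    linear_combination y.1.1.2.2.2 * h4
  nat {R S} _ _ _ _ f x := by
    refine Subtype.ext (Subtype.ext (Prod.ext rfl (Prod.ext rfl (Prod.ext rfl ?_))))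
    change f (qf (fun i => algebraMap k K (q i)) x.1.1.1.1.1.1 x.1.1.1.1.1.2.1
      x.1.1.1.1.1.2.2 * x.1.1.2) = qf (fun i => algebraMap k K (q i)) (f x.1.1.1.1.1.1)
      (f x.1.1.1.1.1.2.1) (f x.1.1.1.1.1.2.2) * f x.1.1.2
    rw [map_mul, qf_map]

end Pool.Agent.Helper71.QP
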