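import Pool.Agent.Helper71.QP.AffQ
import Pool.Agent.Helper71.PN.Insep
import Pool.Agent.Helper9.QP.Thm

/-!
# Isogeny covers of the plane branched along a quartic curve and a double conic
-/

set_option autoImplicit false

namespace Pool.Agent.Helper71.QP

open Pool.Agent.Helper29.CQ Pool.Agent.Helper65.CC Pool.Agent.Helper87.CC
  Pool.Agent.Helper65.CC.KFn
open Pool.Agent.Helper9.QP
open Pool.Agent.Helper71.PN
open Pool.Agent.Helper29.PF (StableClass)
open Polynomial

variable {k : Type} [Field k] {p : ℕ} {P : ∀ (A : Type) [CommRing A], Prop}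

theorem conicSt : ConicSt := by
  intro K _ _ G hG k _ _ _ hW c q hq e h4
  exact Pool.Agent.Helper49.QP.cone_conic hG hW c q hq e h4

theorem ev2_F2 (c : ℕ → ℕ → k) (R : Type) [CommRing R] [Algebra k R] (x y : R) :
    ev2 (F2 c) x y = F4 c x y 1 := by
  have h1 := F4_map c (MvPolynomial.aeval ![x, y] : MvPolynomial (Fin 2) k →ₐ[k] R)
    (MvPolynomial.X 0) (MvPolynomial.X 1) 1
  rw [MvPolynomial.aeval_X, MvPolynomial.aeval_X, map_one] at h1
  exact h1

theorem ev2_G2 (q : Fin 6 → k) (R : Type) [CommRing R] [Algebra k R] (x y : R) :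
    ev2 (G2 q) x y = qf q x y 1 := by
  have h1 := qf_map q (MvPolynomial.aeval ![x, y] : MvPolynomial (Fin 2) k →ₐ[k] R)
    (MvPolynomial.X 0) (MvPolynomial.X 1) 1
  rw [MvPolynomial.aeval_X, MvPolynomial.aeval_X, map_one] at h1
  exact h1

/-- separable additive polynomials -/
theorem wild_sep [Finite k] (hp : p.Prime) (hp2 : p ≠ 2) (hP : IsogenyClass p P) [CharP k p]
    (f g : MvPolynomial (Fin 2) k) (hf : f.totalDegree ≤ 4) (hg : g.totalDegree ≤ 2) (φ : k[X])
    (h1 : ∀ m ∈ φ.support, ∃ i, m = p ^ i) (h2 : φ.coeff 1 ≠ 0) :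
    (AF f g φ).Mem (fun R _ _ => P R) := by
  have hk : (p : k) = 0 := CharP.cast_eq_zero k p
  have h2k : (2 : k) ≠ 0 := by
    intro h
    have h3 : ((2 : ℕ) : k) = 0 := by
      rw [Nat.cast_ofNat]
      exact h
    rw [CharP.cast_eq_zero_iff k p] at h3
    exact hp2 ((Nat.prime_dvd_prime_iff_eq hp Nat.prime_two).1 h3)
  have hφ : 0 < φ.natDegree := lt_of_lt_of_le one_pos (le_natDegree_of_ne_zero h2)
  obtain ⟨c, rfl⟩ := exists_c f hf
  obtain ⟨q, rfl⟩ := exists_q g hg
  have hG := gops_k hP.toFormalClass k hk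
  rcases eq_or_ne q 0 with rfl | hq
  · refine mem_A2A3 hP.toFormalClass hk _ _ φ (Mem.of_trivial hG.toKOps fun R _ _ x => ?_)
    have h3 : IsUnit (ev2 (G2 (0 : Fin 6 → k)) x.1.1.1.1 x.1.1.1.2) := x.1.1.2
    rw [ev2_G2] at h3
    have h4 : qf (0 : Fin 6 → k) x.1.1.1.1 x.1.1.1.2 (1 : R) = 0 := by
      simp [qf]
    rw [h4] at h3
    exact subsingleton_of_zero_eq_one (isUnit_zero_iff.1 h3)
  · refine aff_mem hP.toStableClass hk h2k _ _ c q (ev2_F2 c) (ev2_G2 q) φ hφ ?_
    by_cases hinv : ∃ u : Fin 3 → k, u ≠ 0 ∧ Inv c u ∧ InvQ q u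
    · obtain ⟨u, hu, hc', hq'⟩ := hinv
      exact prod_case hP.toFormalClass hk c q φ hφ u hu hc' hq'
    · push Not at hinv
      exact xc_wild conicSt hp hP hp2 c q hq (fun u hu h => hinv u hu h.1 h.2) φ h1 h2

/-- the root of an inseparable additive polynomial -/
theorem exists_root [Finite k] [CharP k p] (hp : p.Prime) (φ : k[X]) (h0 : φ ≠ 0)
    (h1 : ∀ m ∈ φ.support, ∃ i, m = p ^ i) (h2 : φ.coeff 1 = 0) :
    ∃ ψ : k[X], ψ ^ p = φ ∧ ψ ≠ 0 ∧ (∀ m ∈ ψ.support, ∃ i, m = p ^ i) ∧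
      ψ.natDegree < φ.natDegree := by
  have hpp : Fact p.Prime := ⟨hp⟩
  have hder : derivative φ = 0 := by
    ext n
    rw [coeff_derivative, coeff_zero]
    by_cases h3 : φ.coeff (n + 1) = 0
    · rw [h3, zero_mul]
    · obtain ⟨i, hi⟩ := h1 (n + 1) (mem_support_iff.2 h3)
      have hi0 : i ≠ 0 := by
        rintro rfl
        rw [pow_zero] at hi
        rw [hi] at h3
        exact h3 h2
      have h4 : ((n : k) + 1) = 0 := by
        have h5 : ((n + 1 : ℕ) : k) = 0 := by
          rw [hi, Nat.cast_pow, CharP.cast_eq_zero, zero_pow hi0]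
        rw [Nat.cast_add, Nat.cast_one] at h5
        exact h5
      rw [h4, mul_zero]
  have hexp := expand_contract p hder hp.ne_zero
  have hbij : Function.Bijective (frobenius k p) :=
    Finite.injective_iff_bijective.1 (frobenius_inj k p)
  let e : k ≃+* k := RingEquiv.ofBijective (frobenius k p) hbij
  have he : (frobenius k p).comp (e.symm : k →+* k) = RingHom.id k := by
    refine RingHom.ext fun c => ?_
    exact e.apply_symm_apply c
  have hψ : (map (e.symm : k →+* k) (contract p φ)) ^ p = φ := by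
    rw [← map_frobenius_expand, map_expand, map_map, he, map_id, hexp]
  refine ⟨map (e.symm : k →+* k) (contract p φ), hψ, ?_, ?_, ?_⟩
  · intro h3
    rw [h3, zero_pow hp.ne_zero] at hψ
    exact h0 hψ.symm
  · intro m hm
    have h3 : (contract p φ).coeff m ≠ 0 := by
      intro h4
      rw [mem_support_iff, coeff_map, h4, map_zero] at hm
      exact hm rfl
    rw [coeff_contract hp.ne_zero] at h3
    obtain ⟨i, hi⟩ := h1 _ (mem_support_iff.2 h3)
    cases i with
    | zero =>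
      rw [pow_zero] at hi
      rw [hi] at h3
      exact absurd h2 h3
    | succ i =>
      exact ⟨i, Nat.eq_of_mul_eq_mul_right hp.pos (hi.trans (pow_succ p i))⟩
  · have h3 : (map (e.symm : k →+* k) (contract p φ)) ≠ 0 := by
      intro h3
      rw [h3, zero_pow hp.ne_zero] at hψ
      exact h0 hψ.symm
    have hd : φ.natDegree = p * (map (e.symm : k →+* k) (contract p φ)).natDegree := by
      conv_lhs => rw [← hψ]
      rw [natDegree_pow]
    have hpos : 0 < φ.natDegree := by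
      by_contra h4
      have h5 : φ.natDegree = 0 := by omega
      obtain ⟨i, hi⟩ := h1 0 (mem_support_iff.2 (by
        have h6 : φ.leadingCoeff ≠ 0 := leadingCoeff_ne_zero.2 h0
        rw [leadingCoeff, h5] at h6
        exact h6))
      exact absurd hi.symm (pow_ne_zero i hp.ne_zero)
    rw [hd] at hpos ⊢
    have h6 := Nat.pos_of_mul_pos_left hpos
    nlinarith [hp.two_le]

/-- **additive polynomials** -/
theorem wild_all [Finite k] (hp : p.Prime) (hp2 : p ≠ 2) (hP : IsogenyClass p P) [CharP k p]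
    (n : ℕ) : ∀ (f g : MvPolynomial (Fin 2) k), f.totalDegree ≤ 4 → g.totalDegree ≤ 2 →
      ∀ φ : k[X], φ.natDegree ≤ n → φ ≠ 0 → (∀ m ∈ φ.support, ∃ i, m = p ^ i) →
        (AF f g φ).Mem (fun R _ _ => P R) := by
  have hpp : Fact p.Prime := ⟨hp⟩
  have hk : (p : k) = 0 := CharP.cast_eq_zero k p
  induction n with
  | zero =>
    intro f g hf hg φ hn h0 h1
    exfalso
    obtain ⟨i, hi⟩ := h1 0 (mem_support_iff.2 (by
      have h6 : φ.leadingCoeff ≠ 0 := leadingCoeff_ne_zero.2 h0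
      rw [leadingCoeff, Nat.le_zero.1 hn] at h6
      exact h6))
    exact absurd hi.symm (pow_ne_zero i hp.ne_zero)
  | succ n ih =>
    intro f g hf hg φ hn h0 h1
    by_cases h2 : φ.coeff 1 = 0
    · obtain ⟨ψ, hψ, hψ0, hψ1, hψn⟩ := exists_root hp φ h0 h1 h2
      obtain ⟨τ, hτ⟩ := Pool.Agent.Helper67.CQ.ex_root hk f
      obtain ⟨τ', hτ'⟩ := Pool.Agent.Helper67.CQ.ex_root hk g
      have hd : ∀ (σ : k →+* k) (a : MvPolynomial (Fin 2) k) (d : ℕ), a.totalDegree ≤ d →
          (MvPolynomial.map σ a).totalDegree ≤ d := fun σ a d ha =>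
        (Finset.sup_mono (MvPolynomial.support_map_subset σ a)).trans ha
      rw [← hψ]
      refine insep hP.toFormalClass hp hk f g _ _ (fun R _ _ x y => ev2_root hp hk hτ R x y)
        (fun R _ _ x y => ev2_root hp hk hτ' R x y) ψ ?_
      exact ih _ _ (hd τ f 4 hf) (hd τ' g 2 hg) ψ (by omega) hψ0 hψ1
    · exact wild_sep hp hp2 hP f g hf hg φ h1 h2

/-- **Isogeny covers of the plane branched along a quartic curve and a double conic.** -/
theorem isogeny_pencils [Finite k] (hp : p.Prime) (hp2 : p ≠ 2) (hP : IsogenyClass p P)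
    [CharP k p] (f g : MvPolynomial (Fin 2) k) (hf : f.totalDegree ≤ 4) (hg : g.totalDegree ≤ 2)
    (φ : k[X]) (hφ : (∃ n, 0 < n ∧ φ = X ^ n) ∨ (φ ≠ 0 ∧ ∀ m ∈ φ.support, ∃ i, m = p ^ i)) :
    P (AdjoinRoot (C (g ^ 2) * φ.map (MvPolynomial.C : k →+* MvPolynomial (Fin 2) k) - C f :
      (MvPolynomial (Fin 2) k)[X])) := by
  rcases hφ with ⟨n, hn, rfl⟩ | ⟨h0, h1⟩
  · have h1 := quartic_pencils hp hp2 hP.toStableClass f g hf hg n hn
    rw [Polynomial.map_pow, map_X]
    exact h1
  · obtain ⟨b, hb⟩ := rep_AF f g φ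
    have hft : Algebra.FiniteType k (AdjoinRoot (gp f g φ)) :=
      Algebra.FiniteType.trans (S := MvPolynomial (Fin 2) k) inferInstance inferInstance
    exact wild_all hp hp2 hP φ.natDegree f g hf hg φ le_rfl h0 h1 _ b hft hb

end Pool.Agent.Helper71.QP
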