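import Pool.Agent.Helper71.QP.Geo
import Pool.Agent.Helper71.PN.Aff
import Pool.Agent.Helper9.QP.Main

/-!
# Covers of the plane by additive polynomials: the affine surfaces
-/

set_option autoImplicit false

namespace Pool.Agent.Helper71.QP

open Pool.Agent.Helper29.CQ Pool.Agent.Helper65.CC Pool.Agent.Helper87.CC
  Pool.Agent.Helper65.CC.KFn
open Pool.Agent.Helper9.QP
open Pool.Agent.Helper71.PN
open Pool.Agent.Helper29.PF (StableClass)
open Polynomial

variable {k : Type} [Field k]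

theorem qf_smul (q : Fin 6 → k) {R : Type} [CommRing R] [Algebra k R] (u x y z : R) :
    qf q (u * x) (u * y) (u * z) = u ^ 2 * qf q x y z := by
  simp only [qf]
  ring

/-- the action of the multiplicative group -/
def LGs (q : Fin 6 → k) : Sc (LG q) where
  sc {R} _ _ t x := ⟨(t * x.1.1, t * x.1.2.1, t * x.1.2.2), by
    have h1 : IsUnit (qf q x.1.1 x.1.2.1 x.1.2.2) := x.2
    change IsUnit (qf q (t * x.1.1) (t * x.1.2.1) (t * x.1.2.2))
    rw [qf_smul]
    exact (t.isUnit.pow 2).mul h1⟩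
  one {R} _ _ x := by
    refine Subtype.ext (Prod.ext ?_ (Prod.ext ?_ ?_))
    · exact one_mul _
    · exact one_mul _
    · exact one_mul _
  mul {R} _ _ u v x := by
    refine Subtype.ext (Prod.ext ?_ (Prod.ext ?_ ?_))
    · exact mul_assoc _ _ _
    · exact mul_assoc _ _ _
    · exact mul_assoc _ _ _
  nat {R S} _ _ _ _ f u x := by
    refine Subtype.ext (Prod.ext ?_ (Prod.ext ?_ ?_))
    · exact map_mul f _ _
    · exact map_mul f _ _
    · exact map_mul f _ _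

theorem aLG_inv (c : ℕ → ℕ → k) (q : Fin 6 → k) {R : Type} [CommRing R] [Algebra k R] (t : Rˣ)
    (x : (LG q).obj R) : (aLG c q).val ((LGs q).sc t x) = (aLG c q).val x := by
  have h1 : IsUnit (qf q x.1.1 x.1.2.1 x.1.2.2) := x.2
  have h2 := Ring.mul_inverse_cancel _ h1
  change F4 c (t * x.1.1) (t * x.1.2.1) (t * x.1.2.2) *
    Ring.inverse (qf q (t * x.1.1) (t * x.1.2.1) (t * x.1.2.2)) ^ 2 =
    F4 c x.1.1 x.1.2.1 x.1.2.2 * Ring.inverse (qf q x.1.1 x.1.2.1 x.1.2.2) ^ 2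
  rw [qf_smul, F4_smul]
  have h3 : (t : R) * ((t⁻¹ : Rˣ) : R) = 1 := t.mul_inv
  have h4 : Ring.inverse ((t : R) ^ 2 * qf q x.1.1 x.1.2.1 x.1.2.2) =
      ((t⁻¹ : Rˣ) : R) ^ 2 * Ring.inverse (qf q x.1.1 x.1.2.1 x.1.2.2) := by
    refine inv_unique ?_
    set i := Ring.inverse (qf q x.1.1 x.1.2.1 x.1.2.2)
    set g := qf q x.1.1 x.1.2.1 x.1.2.2
    set s := ((t⁻¹ : Rˣ) : R)
    linear_combination (t * s) ^ 2 * h2 + (t * s + 1) * h3
  rw [h4]
  set i := Ring.inverse (qf q x.1.1 x.1.2.1 x.1.2.2)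
  set s := ((t⁻¹ : Rˣ) : R)
  have h5 : (t * s : R) ^ 4 = 1 := by rw [h3, one_pow]
  linear_combination (F4 c x.1.1 x.1.2.1 x.1.2.2 * i ^ 2) * h5

/-- coordinates -/
def LGx (q : Fin 6 → k) : Coord (LG q) := ⟨fun x => x.1.1, fun _ _ => rfl⟩

/-- coordinates -/
def LGz (q : Fin 6 → k) : Coord (LG q) := ⟨fun x => x.1.2.2, fun _ _ => rfl⟩

/-- the action on the section at infinity -/
def LZs (q : Fin 6 → k) : Sc ((LG q).cls (LGz q)) := (LGs q).cls (LGz q) fun {R} _ _ t x h => by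
  have h1 : x.1.2.2 = 0 := h
  change (t : R) * x.1.2.2 = 0
  rw [h1, mul_zero]

theorem mem_inf [Finite k] {p : ℕ} {P : ∀ (A : Type) [CommRing A], Prop} (hP : FormalClass p P)
    (hk : (p : k) = 0) (c : ℕ → ℕ → k) (q : Fin 6 → k) (φ : k[X]) (hφ : 0 < φ.natDegree) :
    (rootF ((LG q).cls (LGz q)) (resC _ (aLG c q)) φ).Mem (fun R _ _ => P R) := by
  refine root_cone1 hP hk (LZs q) _ φ hφ (fun t x => aLG_inv c q t x.1) (resC _ (LGx q))
    (fun _ _ => rfl) ?_ ?_
  · let u : Coord (A1 k) := ⟨fun {R} _ _ y => qf q 1 (show R from y) 0, fun f x => by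
      rw [qf_map, map_one, map_zero]
      rfl⟩
    have h1 : D1 ((A1 k).opn u) := D1.line1.opn u
    refine D1.of_iso ?_ h1
    exact
      { hom := fun {R} _ _ x => ⟨x.1.1.1.2.1, by
          have h2 : IsUnit (qf q x.1.1.1.1 x.1.1.1.2.1 x.1.1.1.2.2) := x.1.1.2
          have h3 : x.1.1.1.2.2 = 0 := x.1.2
          have h4 : x.1.1.1.1 - algebraMap k R 1 = 0 := x.2
          rw [map_one, sub_eq_zero] at h4
          rw [h3, h4] at h2
          exact h2⟩
        inv := fun {R} _ _ y => ⟨⟨⟨(1, y.1, 0), y.2⟩, rfl⟩, by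
          change (1 : R) - algebraMap k R 1 = 0
          rw [map_one, sub_self]⟩
        inv_hom := fun {R} _ _ x => by
          have h3 : x.1.1.1.2.2 = 0 := x.1.2
          have h4 : x.1.1.1.1 - algebraMap k R 1 = 0 := x.2
          rw [map_one, sub_eq_zero] at h4
          exact Subtype.ext (Subtype.ext (Subtype.ext (Prod.ext h4.symm (Prod.ext rfl h3.symm))))
        hom_inv := fun _ => rfl
        nat := fun _ _ => rfl }
  · let u : Coord (A1 k) := ⟨fun {R} _ _ y => qf q 0 (show R from y) 0, fun f x => by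
      rw [qf_map, map_zero]
      rfl⟩
    have h1 : D1 ((A1 k).opn u) := D1.line1.opn u
    refine D1.of_iso ?_ h1
    exact
      { hom := fun {R} _ _ x => ⟨x.1.1.1.2.1, by
          have h2 : IsUnit (qf q x.1.1.1.1 x.1.1.1.2.1 x.1.1.1.2.2) := x.1.1.2
          have h3 : x.1.1.1.2.2 = 0 := x.1.2
          have h4 : x.1.1.1.1 = 0 := x.2
          rw [h3, h4] at h2
          exact h2⟩
        inv := fun {R} _ _ y => ⟨⟨⟨(0, y.1, 0), y.2⟩, rfl⟩, rfl⟩
        inv_hom := fun {R} _ _ x => by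
          have h3 : x.1.1.1.2.2 = 0 := x.1.2
          have h4 : x.1.1.1.1 = 0 := x.2
          exact Subtype.ext (Subtype.ext (Subtype.ext (Prod.ext h4.symm (Prod.ext rfl h3.symm))))
        hom_inv := fun _ => rfl
        nat := fun _ _ => rfl }

/-! ### The product case -/

theorem aLG_prod (c : ℕ → ℕ → k) (q : Fin 6 → k) (h : Inv c ![0, 0, 1]) (h' : InvQ q ![0, 0, 1])
    {R : Type} [CommRing R] [Algebra k R] (x y z : R) : qf q x y z = qf q x y 0 := by
  have h1 := h' R x y z (-z)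
  change qf q (x + -z * algebraMap k R 0) (y + -z * algebraMap k R 0)
    (z + -z * algebraMap k R 1) = qf q x y z at h1
  rw [map_zero, map_one, mul_zero, add_zero, add_zero, mul_one, add_neg_cancel] at h1
  exact h1.symm

/-- the base is a product -/
def LGprod (c : ℕ → ℕ → k) (q : Fin 6 → k) (h : Inv c ![0, 0, 1]) (h' : InvQ q ![0, 0, 1]) :
    Iso (LG q) ((LG q).cls (LGz q)).line where
  hom {R} _ _ x := (⟨⟨(x.1.1, x.1.2.1, 0), by
    have h1 : IsUnit (qf q x.1.1 x.1.2.1 x.1.2.2) := x.2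
    rw [aLG_prod c q h h'] at h1
    exact h1⟩, rfl⟩, x.1.2.2)
  inv {R} _ _ y := ⟨(y.1.1.1.1, y.1.1.1.2.1, y.2), by
    have h1 : IsUnit (qf q y.1.1.1.1 y.1.1.1.2.1 y.1.1.1.2.2) := y.1.1.2
    rw [aLG_prod c q h h'] at h1
    change IsUnit (qf q y.1.1.1.1 y.1.1.1.2.1 y.2)
    rw [aLG_prod c q h h']
    exact h1⟩
  inv_hom _ := rfl
  hom_inv {R} _ _ y := by
    have h3 : y.1.1.1.2.2 = 0 := y.1.2
    exact Prod.ext (Subtype.ext (Subtype.ext (Prod.ext rfl (Prod.ext rfl h3.symm)))) rfl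
  nat {R S} _ _ _ _ f x := by
    refine Prod.ext (Subtype.ext (Subtype.ext (Prod.ext rfl (Prod.ext rfl ?_)))) rfl
    exact map_zero f

theorem prod_mem [Finite k] {p : ℕ} {P : ∀ (A : Type) [CommRing A], Prop} (hP : FormalClass p P)
    (hk : (p : k) = 0) (c : ℕ → ℕ → k) (q : Fin 6 → k) (φ : k[X]) (hφ : 0 < φ.natDegree)
    (h : Inv c ![0, 0, 1]) (h' : InvQ q ![0, 0, 1]) : (XC c q φ).Mem (fun R _ _ => P R) := by
  have hG := gops_k hP k hk
  have h1 := Mem.line hG.toKOps (mem_inf hP hk c q φ hφ)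
  refine Mem.of_iso (trans (rootIso (LGprod c q h h') (aLG c q)
    (liC (resC (LGz q) (aLG c q))) φ ?_) (rootLine _ φ)) h1
  intro R _ _ x
  change F4 c x.1.1 x.1.2.1 0 * Ring.inverse (qf q x.1.1 x.1.2.1 0) ^ 2 =
    F4 c x.1.1 x.1.2.1 x.1.2.2 * Ring.inverse (qf q x.1.1 x.1.2.1 x.1.2.2) ^ 2
  rw [← F4_inv h x.1.1 x.1.2.1 x.1.2.2, ← aLG_prod c q h h' x.1.1 x.1.2.1 x.1.2.2]

/-- change of coordinates -/
def LGi (q q' : Fin 6 → k) (M N : Matrix (Fin 3) (Fin 3) k) (h1 : M * N = 1) (h2 : N * M = 1)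
    (h : ∀ (R : Type) [CommRing R] [Algebra k R] (x : R × R × R), Qv q (lv M x) = Qv q' x) :
    Iso (LG q) (LG q') where
  hom {R} _ _ x := ⟨lv N x.1, by
    have h3 : IsUnit (Qv q x.1) := x.2
    change IsUnit (Qv q' (lv N x.1))
    rw [← h, lv_mul, h1, lv_one]
    exact h3⟩
  inv {R} _ _ y := ⟨lv M y.1, by
    have h3 : IsUnit (Qv q' y.1) := y.2
    change IsUnit (Qv q (lv M y.1))
    rw [h]
    exact h3⟩
  inv_hom {R} _ _ x := Subtype.ext (by
    change lv M (lv N x.1) = x.1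
    rw [lv_mul, h1, lv_one])
  hom_inv {R} _ _ y := Subtype.ext (by
    change lv N (lv M y.1) = y.1
    rw [lv_mul, h2, lv_one])
  nat {R S} _ _ _ _ f x := Subtype.ext (lv_map N f x.1).symm

theorem inv_coord {c c' : ℕ → ℕ → k} {M N : Matrix (Fin 3) (Fin 3) k} (v : Fin 3 → k)
    (hM : ∀ i, M i 2 = v i)
    (hc : ∀ (R : Type) [CommRing R] [Algebra k R] (x : R × R × R), Fv c (lv M x) = Fv c' x)
    (h : Inv c v) : Inv c' ![0, 0, 1] := by
  intro R _ _ x y z t
  have h3 : Fv c' (x, y, z + t) = Fv c' (x, y, z) := by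
    rw [← hc, ← hc]
    have h4 : lv M (x, y, z + t) = ((lv M (x, y, z)).1 + t * algebraMap k R (v 0),
        (lv M (x, y, z)).2.1 + t * algebraMap k R (v 1),
        (lv M (x, y, z)).2.2 + t * algebraMap k R (v 2)) := by
      refine Prod.ext ?_ (Prod.ext ?_ ?_)
      · simp only [lv, hM]
        ring
      · simp only [lv, hM]
        ring
      · simp only [lv, hM]
        ring
    rw [h4]
    exact h R _ _ _ t
  change F4 c' (x + t * algebraMap k R 0) (y + t * algebraMap k R 0)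
    (z + t * algebraMap k R 1) = F4 c' x y z
  rw [map_zero, map_one, mul_zero, add_zero, add_zero, mul_one]
  exact h3

theorem invQ_coord {q q' : Fin 6 → k} {M N : Matrix (Fin 3) (Fin 3) k} (v : Fin 3 → k)
    (hM : ∀ i, M i 2 = v i)
    (hc : ∀ (R : Type) [CommRing R] [Algebra k R] (x : R × R × R), Qv q (lv M x) = Qv q' x)
    (h : InvQ q v) : InvQ q' ![0, 0, 1] := by
  intro R _ _ x y z t
  have h3 : Qv q' (x, y, z + t) = Qv q' (x, y, z) := by
    rw [← hc, ← hc]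
    have h4 : lv M (x, y, z + t) = ((lv M (x, y, z)).1 + t * algebraMap k R (v 0),
        (lv M (x, y, z)).2.1 + t * algebraMap k R (v 1),
        (lv M (x, y, z)).2.2 + t * algebraMap k R (v 2)) := by
      refine Prod.ext ?_ (Prod.ext ?_ ?_)
      · simp only [lv, hM]
        ring
      · simp only [lv, hM]
        ring
      · simp only [lv, hM]
        ring
    rw [h4]
    exact h R _ _ _ t
  change qf q' (x + t * algebraMap k R 0) (y + t * algebraMap k R 0)
    (z + t * algebraMap k R 1) = qf q' x y z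
  rw [map_zero, map_one, mul_zero, add_zero, add_zero, mul_one]
  exact h3

/-- **the product case** -/
theorem prod_case [Finite k] {p : ℕ} {P : ∀ (A : Type) [CommRing A], Prop} (hP : FormalClass p P)
    (hk : (p : k) = 0) (c : ℕ → ℕ → k) (q : Fin 6 → k) (φ : k[X]) (hφ : 0 < φ.natDegree)
    (u : Fin 3 → k) (hu : u ≠ 0) (h : Inv c u) (h' : InvQ q u) :
    (XC c q φ).Mem (fun R _ _ => P R) := by
  obtain ⟨M, N, h1, h1', hM⟩ := exists_mat u hu
  obtain ⟨c', hc'⟩ := exists_lin c M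
  obtain ⟨q', hq'⟩ := exists_linQ q M
  refine Mem.of_iso (rootIso (LGi q q' M N h1 h1' hq') (aLG c q) (aLG c' q') φ ?_)
    (prod_mem hP hk c' q' φ hφ (inv_coord (N := N) u hM hc' h) (invQ_coord (N := N) u hM hq' h'))
  intro R _ _ x
  change Fv c' (lv N x.1) * Ring.inverse (Qv q' (lv N x.1)) ^ 2 =
    Fv c x.1 * Ring.inverse (Qv q x.1) ^ 2
  rw [← hc', ← hq', lv_mul, h1, lv_one]

/-! ### The affine plane -/

/-- the slice -/
noncomputable def slice (g : MvPolynomial (Fin 2) k) (q : Fin 6 → k)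
    (h : ∀ (R : Type) [CommRing R] [Algebra k R] (x y : R), ev2 g x y = qf q x y 1) :
    Iso ((A2 k).opn (cd2 g)) ((LG q).cls (subC (LGz q) 1)) where
  hom {R} _ _ x := ⟨⟨(x.1.1, x.1.2, 1), by
    have h1 : IsUnit (ev2 g x.1.1 x.1.2) := x.2
    rw [h] at h1
    exact h1⟩, by
    change (1 : R) - algebraMap k R 1 = 0
    rw [map_one, sub_self]⟩
  inv {R} _ _ y := ⟨(y.1.1.1, y.1.1.2.1), by
    have h1 : IsUnit (qf q y.1.1.1 y.1.1.2.1 y.1.1.2.2) := y.1.2
    have h2 : y.1.1.2.2 - algebraMap k R 1 = 0 := y.2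
    rw [map_one, sub_eq_zero] at h2
    rw [h2, ← h] at h1
    exact h1⟩
  inv_hom _ := rfl
  hom_inv {R} _ _ y := by
    have h2 : y.1.1.2.2 - algebraMap k R 1 = 0 := y.2
    rw [map_one, sub_eq_zero] at h2
    exact Subtype.ext (Subtype.ext (Prod.ext rfl (Prod.ext rfl h2.symm)))
  nat {R S} _ _ _ _ f x := by
    refine Subtype.ext (Subtype.ext (Prod.ext rfl (Prod.ext rfl ?_)))
    exact map_one f

theorem aff_mem [Finite k] {p : ℕ} {P : ∀ (A : Type) [CommRing A], Prop} (hP : StableClass p P)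
    (hk : (p : k) = 0) (h2 : (2 : k) ≠ 0) (f g : MvPolynomial (Fin 2) k) (c : ℕ → ℕ → k)
    (q : Fin 6 → k)
    (hf : ∀ (R : Type) [CommRing R] [Algebra k R] (x y : R), ev2 f x y = F4 c x y 1)
    (hg : ∀ (R : Type) [CommRing R] [Algebra k R] (x y : R), ev2 g x y = qf q x y 1)
    (φ : k[X]) (hφ : 0 < φ.natDegree) (hm : (XC c q φ).Mem (fun R _ _ => P R)) :
    (AF f g φ).Mem (fun R _ _ => P R) := by
  refine cone_aff hP hk h2 (LGs q) (aLG c q) φ (fun t x => aLG_inv c q t x) (LGz q)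
    (fun _ _ => rfl) hm (mem_inf hP.toFormalClass hk c q φ hφ) f g (slice g q hg) ?_
  intro R _ _ x
  change F4 c x.1.1 x.1.2 1 * Ring.inverse (qf q x.1.1 x.1.2 1) ^ 2 =
    ev2 f x.1.1 x.1.2 * Ring.inverse (ev2 g x.1.1 x.1.2) ^ 2
  rw [hf, hg]

end Pool.Agent.Helper71.QP
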