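import Pool.Agent.Helper71.QP.Wild

/-!
# The members of a pencil which contains a double conic, and additive covers
-/

set_option autoImplicit false

namespace Pool.Agent.Helper71.QP

open Pool.Agent.Helper29.CQ Pool.Agent.Helper65.CC Pool.Agent.Helper87.CC
  Pool.Agent.Helper65.CC.KFn
open Pool.Agent.Helper9.QP
open Pool.Agent.Helper71.PN
open Polynomial

section geo

variable {K : Type} [Field K] {G : ∀ (R : Type) [CommRing R] [Algebra K R], Prop}

/-- the double cover of the conic does not depend on the member of the pencil -/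
theorem conic_pen (h2 : (2 : K) ≠ 0) (c : ℕ → ℕ → K) (q : Fin 6 → K) (a b : K) (hb : b ≠ 0)
    (h : ∀ e : K, 4 * e ≠ 0 → ((CV (Qc c q e)).cls (CV.q _ q)).Mem G) :
    ((CV (pen c q a b)).cls (qc _ q)).Mem G := by
  have h4 : (4 : K) ≠ 0 := by
    have h3 : (4 : K) = 2 * 2 := by norm_num
    rw [h3]
    exact mul_ne_zero h2 h2
  have he : 4 * (-b / 4) = -b := mul_div_cancel₀ _ h4
  refine Mem.of_iso ?_ (h (-b / 4) (by rw [he]; exact neg_ne_zero.2 hb))
  have key : ∀ (R : Type) [CommRing R] [Algebra K R] (x y z : R), qf q x y z = 0 →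
      F4 (Qc c q (-b / 4)) x y z = F4 (pen c q a b) x y z := by
    intro R _ _ x y z h0
    have he' : 4 * algebraMap K R (-b / 4) = -algebraMap K R b := by
      rw [← map_neg, ← map_ofNat (algebraMap K R) 4, ← map_mul, he]
    rw [F4_Qc, F4_pen, h0, he']
    ring
  exact
    { hom := fun {R} _ _ x => ⟨⟨x.1.1, by
        have h3 : qf q x.1.1.1 x.1.1.2.1 x.1.1.2.2.1 = 0 := x.2
        have h5 : x.1.1.2.2.2 ^ 2 - F4 (pen c q a b) x.1.1.1 x.1.1.2.1 x.1.1.2.2.1 = 0 := x.1.2
        change x.1.1.2.2.2 ^ 2 - F4 (Qc c q (-b / 4)) x.1.1.1 x.1.1.2.1 x.1.1.2.2.1 = 0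
        rw [key R _ _ _ h3]
        exact h5⟩, x.2⟩
      inv := fun {R} _ _ x => ⟨⟨x.1.1, by
        have h3 : qf q x.1.1.1 x.1.1.2.1 x.1.1.2.2.1 = 0 := x.2
        have h5 : x.1.1.2.2.2 ^ 2 - F4 (Qc c q (-b / 4)) x.1.1.1 x.1.1.2.1 x.1.1.2.2.1 = 0 := x.1.2
        change x.1.1.2.2.2 ^ 2 - F4 (pen c q a b) x.1.1.1 x.1.1.2.1 x.1.1.2.2.1 = 0
        rw [← key R _ _ _ h3]
        exact h5⟩, x.2⟩
      inv_hom := fun _ => rfl
      hom_inv := fun _ => rfl
      nat := fun _ _ => rfl }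

/-- **the members of the pencil**, if no direction is invariant for both forms over the small
field -/
theorem geo4 [IsAlgClosed K] (h2 : (2 : K) ≠ 0) (hG : GOps K G) {k : Type} [Field k] [Finite k]
    [Algebra k K] (c : ℕ → ℕ → k) (q : Fin 6 → k)
    (hcon : ∀ e : K, 4 * e ≠ 0 →
      ((CV (Qc (fun i j => algebraMap k K (c i j)) (fun i => algebraMap k K (q i)) e)).cls
        (CV.q _ (fun i => algebraMap k K (q i)))).Mem G)
    (hn : ∀ u : Fin 3 → k, u ≠ 0 → ¬ (Inv c u ∧ InvQ q u)) (a b : K) (hb : b ≠ 0) :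
    (CV (pen (fun i j => algebraMap k K (c i j)) (fun i => algebraMap k K (q i)) a b)).Mem G := by
  by_cases h : ∃ v : Fin 3 → K, v ≠ 0 ∧
      Inv (pen (fun i j => algebraMap k K (c i j)) (fun i => algebraMap k K (q i)) a b) v
  · obtain ⟨v, hv, hi⟩ := h
    by_cases hq : InvQ (fun i => algebraMap k K (q i)) v
    · exfalso
      have hF : Inv (fun i j => algebraMap k K (c i j)) v := by
        intro R _ _ x y z t
        have h1 := hi R x y z t
        have h3 := hq R x y z t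
        rw [F4_pen, F4_pen, h3] at h1
        have h4 : algebraMap K R b * algebraMap K R b⁻¹ = 1 := by
          rw [← map_mul, mul_inv_cancel₀ hb, map_one]
        have h5 := add_left_cancel h1
        calc _ = algebraMap K R b⁻¹ * (algebraMap K R b * F4 (fun i j => algebraMap k K (c i j))
              (x + t * algebraMap K R (v 0)) (y + t * algebraMap K R (v 1))
              (z + t * algebraMap K R (v 2))) := by
              rw [← mul_assoc, mul_comm (algebraMap K R b⁻¹), h4, one_mul]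
          _ = F4 (fun i j => algebraMap k K (c i j)) x y z := by
              rw [h5, ← mul_assoc, mul_comm (algebraMap K R b⁻¹), h4, one_mul]
      obtain ⟨u, hu, h5, h6⟩ := Pool.Agent.Helper79.QP.desc c q v hv hF hq
      exact hn u hu ⟨h5, h6⟩
    · exact cone_tr h2 hG _ _ v hv hi hq (conic_pen h2 _ _ a b hb hcon)
  · push Not at h
    exact cone_mem h2 hG _ h

end geo

variable {k : Type} [Field k] [Finite k] {p : ℕ} {P : ∀ (A : Type) [CommRing A], Prop}

/-- the statement on the double cover of the conic (helper49) -/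
def ConicSt : Prop := ∀ (K : Type) [Field K] [IsAlgClosed K]
    (G : ∀ (R : Type) [CommRing R] [Algebra K R], Prop), GOps K G →
    ∀ (k : Type) [Field k] [Finite k] [Algebra k K], Cst k G →
    ∀ (c : ℕ → ℕ → k) (q : Fin 6 → k), q ≠ 0 → ∀ e : K, 4 * e ≠ 0 →
    ((CV (Qc (fun i j => algebraMap k K (c i j)) (fun i => algebraMap k K (q i)) e)).cls
      (CV.q _ (fun i => algebraMap k K (q i)))).Mem G

/-- **additive covers**: the cone -/
theorem xc_wild (hcon : ConicSt) (hp : p.Prime) (hP : IsogenyClass p P) [CharP k p] (hp2 : p ≠ 2)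
    (c : ℕ → ℕ → k) (q : Fin 6 → k) (hq : q ≠ 0)
    (hn : ∀ u : Fin 3 → k, u ≠ 0 → ¬ (Inv c u ∧ InvQ q u)) (φ : k[X])
    (h1 : ∀ m ∈ φ.support, ∃ i, m = p ^ i) (h2 : φ.coeff 1 ≠ 0) :
    (XC c q φ).Mem (fun R _ _ => P R) := by
  refine add_mem hP (CharP.cast_eq_zero k p) hp2 (aLG c q) φ h1 h2 ?_
  refine fib_mem hp hP.toFormalClass k _ ⟨fun x => x.1.1.2, fun _ _ => rfl⟩ ?_
  intro K _ _ _ _ τ G hG hW
  have h2K : (2 : K) ≠ 0 := by
    intro h
    have h3 : ((2 : ℕ) : K) = 0 := by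
      rw [Nat.cast_ofNat]
      exact h
    rw [CharP.cast_eq_zero_iff K p] at h3
    have h4 := (Nat.prime_dvd_prime_iff_eq hp Nat.prime_two).1 h3
    exact hp2 h4
  refine Mem.of_iso (wildFib c q φ K τ) (mem_opn hG.toKOps _ ?_ ?_)
  · exact geo4 h2K hG c q (hcon K G hG k hW c q hq) hn _ 1 one_ne_zero
  · exact conic_pen h2K _ _ _ 1 one_ne_zero (hcon K G hG k hW c q hq)

end Pool.Agent.Helper71.QP
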