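import Pool.Agent.Helper79.QP.Desc
import Pool.Agent.Helper71.PN.Calc

/-!
# Linear changes of coordinates of the cones over double planes
-/

set_option autoImplicit false

namespace Pool.Agent.Helper71.QP

open Pool.Agent.Helper29.CQ Pool.Agent.Helper65.CC Pool.Agent.Helper87.CC
  Pool.Agent.Helper65.CC.KFn
open Pool.Agent.Helper9.QP
open Pool.Agent.Helper79.QP (InvQ)
open Pool.Agent.Helper71.PN
open Polynomial

variable {K : Type} [Field K] {G : ∀ (R : Type) [CommRing R] [Algebra K R], Prop}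

/-- matrices act on vectors -/
def lv (M : Matrix (Fin 3) (Fin 3) K) {R : Type} [CommRing R] [Algebra K R] (x : R × R × R) :
    R × R × R :=
  (algebraMap K R (M 0 0) * x.1 + algebraMap K R (M 0 1) * x.2.1 + algebraMap K R (M 0 2) * x.2.2,
    algebraMap K R (M 1 0) * x.1 + algebraMap K R (M 1 1) * x.2.1 + algebraMap K R (M 1 2) * x.2.2,
    algebraMap K R (M 2 0) * x.1 + algebraMap K R (M 2 1) * x.2.1 + algebraMap K R (M 2 2) * x.2.2)

theorem lv_mul (M N : Matrix (Fin 3) (Fin 3) K) {R : Type} [CommRing R] [Algebra K R]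
    (x : R × R × R) : lv M (lv N x) = lv (M * N) x := by
  refine Prod.ext ?_ (Prod.ext ?_ ?_) <;>
  · simp only [lv, Matrix.mul_apply, Fin.sum_univ_three, map_add, map_mul]
    ring

theorem lv_one {R : Type} [CommRing R] [Algebra K R] (x : R × R × R) :
    lv (1 : Matrix (Fin 3) (Fin 3) K) x = x := by
  refine Prod.ext ?_ (Prod.ext ?_ ?_) <;> simp [lv]

theorem lv_map (M : Matrix (Fin 3) (Fin 3) K) {R S : Type} [CommRing R] [Algebra K R] [CommRing S]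
    [Algebra K S] (f : R →ₐ[K] S) (x : R × R × R) :
    lv M (f x.1, f x.2.1, f x.2.2) = (f (lv M x).1, f (lv M x).2.1, f (lv M x).2.2) := by
  simp only [lv, map_add, map_mul, AlgHom.commutes]

/-- the quartic form -/
def Fv (c : ℕ → ℕ → K) {R : Type} [CommRing R] [Algebra K R] (x : R × R × R) : R :=
  F4 c x.1 x.2.1 x.2.2

/-- the quadratic form -/
def Qv (q : Fin 6 → K) {R : Type} [CommRing R] [Algebra K R] (x : R × R × R) : R :=
  qf q x.1 x.2.1 x.2.2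

theorem exists_lin (c : ℕ → ℕ → K) (M : Matrix (Fin 3) (Fin 3) K) :
    ∃ c' : ℕ → ℕ → K, ∀ (R : Type) [CommRing R] [Algebra K R] (x : R × R × R),
      Fv c (lv M x) = Fv c' x := by
  let L : Fin 3 → MvPolynomial (Fin 3) K := fun i =>
    MvPolynomial.C (M i 0) * MvPolynomial.X 0 + MvPolynomial.C (M i 1) * MvPolynomial.X 1 +
      MvPolynomial.C (M i 2) * MvPolynomial.X 2
  have hL : ∀ i, (L i).IsHomogeneous 1 := fun i =>
    (((MvPolynomial.isHomogeneous_X K 0).C_mul _).add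
      ((MvPolynomial.isHomogeneous_X K 1).C_mul _)).add ((MvPolynomial.isHomogeneous_X K 2).C_mul _)
  have hH : (MvPolynomial.aeval L (Pool.Agent.Helper71.CQ.G4 c)).IsHomogeneous 4 := by
    have h1 := (Pool.Agent.Helper71.CQ.G4_hom c).aeval L hL
    simpa using h1
  obtain ⟨c', hc'⟩ := Pool.Agent.Helper71.CQ.exists_F4 hH
  refine ⟨c', fun R _ _ x => ?_⟩
  have h1 := hc' R ![x.1, x.2.1, x.2.2]
  rw [← AlgHom.comp_apply, MvPolynomial.comp_aeval, Pool.Agent.Helper71.CQ.aeval_G4] at h1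
  simpa [L, Fv, lv] using h1

theorem exists_linQ (q : Fin 6 → K) (M : Matrix (Fin 3) (Fin 3) K) :
    ∃ q' : Fin 6 → K, ∀ (R : Type) [CommRing R] [Algebra K R] (x : R × R × R),
      Qv q (lv M x) = Qv q' x := by
  let m : Fin 3 → Fin 3 → K := M
  refine ⟨![q 0 * M 0 0 ^ 2 + q 1 * (M 0 0 * M 1 0) + q 2 * M 1 0 ^ 2 + q 3 * (M 0 0 * M 2 0) +
      q 4 * (M 1 0 * M 2 0) + q 5 * M 2 0 ^ 2,
    2 * q 0 * M 0 0 * M 0 1 + q 1 * (M 0 0 * M 1 1 + M 0 1 * M 1 0) + 2 * q 2 * M 1 0 * M 1 1 +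
      q 3 * (M 0 0 * M 2 1 + M 0 1 * M 2 0) + q 4 * (M 1 0 * M 2 1 + M 1 1 * M 2 0) +
      2 * q 5 * M 2 0 * M 2 1,
    q 0 * M 0 1 ^ 2 + q 1 * (M 0 1 * M 1 1) + q 2 * M 1 1 ^ 2 + q 3 * (M 0 1 * M 2 1) +
      q 4 * (M 1 1 * M 2 1) + q 5 * M 2 1 ^ 2,
    2 * q 0 * M 0 0 * M 0 2 + q 1 * (M 0 0 * M 1 2 + M 0 2 * M 1 0) + 2 * q 2 * M 1 0 * M 1 2 +
      q 3 * (M 0 0 * M 2 2 + M 0 2 * M 2 0) + q 4 * (M 1 0 * M 2 2 + M 1 2 * M 2 0) +
      2 * q 5 * M 2 0 * M 2 2,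
    2 * q 0 * M 0 1 * M 0 2 + q 1 * (M 0 1 * M 1 2 + M 0 2 * M 1 1) + 2 * q 2 * M 1 1 * M 1 2 +
      q 3 * (M 0 1 * M 2 2 + M 0 2 * M 2 1) + q 4 * (M 1 1 * M 2 2 + M 1 2 * M 2 1) +
      2 * q 5 * M 2 1 * M 2 2,
    q 0 * M 0 2 ^ 2 + q 1 * (M 0 2 * M 1 2) + q 2 * M 1 2 ^ 2 + q 3 * (M 0 2 * M 2 2) +
      q 4 * (M 1 2 * M 2 2) + q 5 * M 2 2 ^ 2], fun R _ _ x => ?_⟩
  simp only [Qv, qf, lv, Matrix.cons_val, map_add, map_mul, map_pow, map_ofNat]
  ring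

theorem Fv_map {R S : Type} [CommRing R] [Algebra K R] [CommRing S] [Algebra K S]
    (c : ℕ → ℕ → K) (f : R →ₐ[K] S) (x : R × R × R) :
    f (Fv c x) = Fv c (f x.1, f x.2.1, f x.2.2) := F4_map c f _ _ _

theorem F4_smul (c : ℕ → ℕ → K) {R : Type} [CommRing R] [Algebra K R] (u x y z : R) :
    F4 c (u * x) (u * y) (u * z) = u ^ 4 * F4 c x y z := by
  simp only [F4]
  ring

/-- the change of coordinates of the cone -/
def CVi (c c' : ℕ → ℕ → K) (M N : Matrix (Fin 3) (Fin 3) K) (h1 : M * N = 1) (h2 : N * M = 1)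
    (h : ∀ (R : Type) [CommRing R] [Algebra K R] (x : R × R × R), Fv c (lv M x) = Fv c' x) :
    Iso (CV c) (CV c') where
  hom {R} _ _ x := ⟨((lv N (x.1.1, x.1.2.1, x.1.2.2.1)).1, (lv N (x.1.1, x.1.2.1, x.1.2.2.1)).2.1,
      (lv N (x.1.1, x.1.2.1, x.1.2.2.1)).2.2, x.1.2.2.2), by
    have h3 : x.1.2.2.2 ^ 2 - F4 c x.1.1 x.1.2.1 x.1.2.2.1 = 0 := x.2
    change x.1.2.2.2 ^ 2 - Fv c' (lv N (x.1.1, x.1.2.1, x.1.2.2.1)) = 0
    rw [← h, lv_mul, h1, lv_one]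
    exact h3⟩
  inv {R} _ _ y := ⟨((lv M (y.1.1, y.1.2.1, y.1.2.2.1)).1, (lv M (y.1.1, y.1.2.1, y.1.2.2.1)).2.1,
      (lv M (y.1.1, y.1.2.1, y.1.2.2.1)).2.2, y.1.2.2.2), by
    have h3 : y.1.2.2.2 ^ 2 - Fv c' (y.1.1, y.1.2.1, y.1.2.2.1) = 0 := y.2
    change y.1.2.2.2 ^ 2 - Fv c (lv M (y.1.1, y.1.2.1, y.1.2.2.1)) = 0
    rw [h]
    exact h3⟩
  inv_hom {R} _ _ x := by
    apply Subtype.ext
    change ((lv M (lv N (x.1.1, x.1.2.1, x.1.2.2.1))).1,
      (lv M (lv N (x.1.1, x.1.2.1, x.1.2.2.1))).2.1,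
      (lv M (lv N (x.1.1, x.1.2.1, x.1.2.2.1))).2.2, x.1.2.2.2) = x.1
    rw [lv_mul, h1, lv_one]
    rfl
  hom_inv {R} _ _ y := by
    apply Subtype.ext
    change ((lv N (lv M (y.1.1, y.1.2.1, y.1.2.2.1))).1,
      (lv N (lv M (y.1.1, y.1.2.1, y.1.2.2.1))).2.1,
      (lv N (lv M (y.1.1, y.1.2.1, y.1.2.2.1))).2.2, y.1.2.2.2) = y.1
    rw [lv_mul, h2, lv_one]
    rfl
  nat {R S} _ _ _ _ f x := by
    apply Subtype.ext
    change (f (lv N (x.1.1, x.1.2.1, x.1.2.2.1)).1, f (lv N (x.1.1, x.1.2.1, x.1.2.2.1)).2.1,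
      f (lv N (x.1.1, x.1.2.1, x.1.2.2.1)).2.2, f x.1.2.2.2) =
      ((lv N (f x.1.1, f x.1.2.1, f x.1.2.2.1)).1, (lv N (f x.1.1, f x.1.2.1, f x.1.2.2.1)).2.1,
        (lv N (f x.1.1, f x.1.2.1, f x.1.2.2.1)).2.2, f x.1.2.2.2)
    have h3 := lv_map N f (x.1.1, x.1.2.1, x.1.2.2.1)
    rw [h3]

/-- invertible matrices with a prescribed last column -/
theorem exists_mat (v : Fin 3 → K) (hv : v ≠ 0) : ∃ M N : Matrix (Fin 3) (Fin 3) K,
    M * N = 1 ∧ N * M = 1 ∧ ∀ i, M i 2 = v i := by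
  have key : ∀ M : Matrix (Fin 3) (Fin 3) K, M.det ≠ 0 → (∀ i, M i 2 = v i) →
      ∃ M N : Matrix (Fin 3) (Fin 3) K, M * N = 1 ∧ N * M = 1 ∧ ∀ i, M i 2 = v i := by
    intro M hM h
    have hu : IsUnit M.det := isUnit_iff_ne_zero.2 hM
    exact ⟨M, M⁻¹, Matrix.mul_nonsing_inv M hu, Matrix.nonsing_inv_mul M hu, h⟩
  by_cases h2 : v 2 = 0
  · by_cases h1 : v 1 = 0
    · have h0 : v 0 ≠ 0 := by
        intro h0
        apply hv
        funext i
        fin_cases i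
        · exact h0
        · exact h1
        · exact h2
      refine key !![0, 0, v 0; 1, 0, v 1; 0, 1, v 2] ?_ ?_
      · rw [Matrix.det_fin_three]
        simpa [h1, h2] using h0
      · intro i
        fin_cases i <;> rfl
    · refine key !![1, 0, v 0; 0, 0, v 1; 0, 1, v 2] ?_ ?_
      · rw [Matrix.det_fin_three]
        simpa [h2] using h1
      · intro i
        fin_cases i <;> rfl
  · refine key !![1, 0, v 0; 0, 1, v 1; 0, 0, v 2] ?_ ?_
    · rw [Matrix.det_fin_three]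
      simpa using h2
    · intro i
      fin_cases i <;> rfl

/-- invariance and changes of coordinates -/
theorem inv_lin {c c' : ℕ → ℕ → K} {M N : Matrix (Fin 3) (Fin 3) K} (h1 : M * N = 1)
    (h : ∀ (R : Type) [CommRing R] [Algebra K R] (x : R × R × R), Fv c (lv M x) = Fv c' x)
    (v : Fin 3 → K) (hv : Inv c' v) : Inv c (fun i => M i 0 * v 0 + M i 1 * v 1 + M i 2 * v 2) := by
  intro R _ _ x y z t
  have h3 := hv R (lv N (x, y, z)).1 (lv N (x, y, z)).2.1 (lv N (x, y, z)).2.2 t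
  have h4 : Fv c' (lv N (x, y, z)) = F4 c x y z := by
    rw [← h, lv_mul, h1, lv_one]
    rfl
  have h5 : Fv c' ((lv N (x, y, z)).1 + t * algebraMap K R (v 0),
      (lv N (x, y, z)).2.1 + t * algebraMap K R (v 1),
      (lv N (x, y, z)).2.2 + t * algebraMap K R (v 2)) = Fv c' (lv N (x, y, z)) := h3
  rw [← h, h4] at h5
  have h6 : lv M ((lv N (x, y, z)).1 + t * algebraMap K R (v 0),
      (lv N (x, y, z)).2.1 + t * algebraMap K R (v 1),
      (lv N (x, y, z)).2.2 + t * algebraMap K R (v 2)) =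
      (x + t * algebraMap K R (M 0 0 * v 0 + M 0 1 * v 1 + M 0 2 * v 2),
        y + t * algebraMap K R (M 1 0 * v 0 + M 1 1 * v 1 + M 1 2 * v 2),
        z + t * algebraMap K R (M 2 0 * v 0 + M 2 1 * v 1 + M 2 2 * v 2)) := by
    have h7 : lv M (lv N (x, y, z)) = (x, y, z) := by rw [lv_mul, h1, lv_one]
    have e0 := congrArg Prod.fst h7
    have e1 := congrArg (fun w => w.2.1) h7
    have e2 := congrArg (fun w => w.2.2) h7
    simp only [lv] at e0 e1 e2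
    refine Prod.ext ?_ (Prod.ext ?_ ?_)
    · simp only [lv, map_add, map_mul]
      linear_combination e0
    · simp only [lv, map_add, map_mul]
      linear_combination e1
    · simp only [lv, map_add, map_mul]
      linear_combination e2
  rw [h6] at h5
  exact h5

end Pool.Agent.Helper71.QP
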