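import Pool.Agent.Helper71.QP.WildAll
import Pool.Agent.Helper71.PN.Sums
import Pool.Agent.Helper29.PF.PencilQ

/-!
# Pencils of quartic curves and sums of polynomials in one variable
-/

set_option autoImplicit false

namespace Pool.Agent.Helper71.QP

open Pool.Agent.Helper71.PN
open Pool.Agent.Helper29.PF (plane_closed)
open Polynomial

variable {p : ℕ} {P : ∀ (A : Type) [CommRing A], Prop} {k : Type} [Field k]

/-- **Sums of isogenies over the plane with a quartic curve and a double conic.** -/
theorem quartic_sums [Finite k] (hp : p.Prime) (hp2 : p ≠ 2) (hP : IsogenyClass p P)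
    [CharP k p] (f g : MvPolynomial (Fin 2) k) (hf : f.totalDegree ≤ 4) (hg : g.totalDegree ≤ 2)
    (m : ℕ) (h : Fin m → k[X])
    (hh : (∀ j, ∃ (c : k) (n : ℕ), 0 < n ∧ h j = C c * X ^ n) ∨
      ∃ j, h j ≠ 0 ∧ ∀ e ∈ (h j).support, ∃ i, e = p ^ i) :
    P (MvPolynomial (Fin m) (MvPolynomial (Fin 2) k) ⧸ Ideal.span {MvPolynomial.C (g ^ 2) *
      MvPolynomial.map MvPolynomial.C (∑ j, aeval (MvPolynomial.X j) (h j)) -
        MvPolynomial.C f}) := by
  have hk : (p : k) = 0 := CharP.cast_eq_zero k p
  exact tower_sums hP.toFormalClass hp hk inferInstance h hh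
    (fun φ hφ => isogeny_pencils hp hp2 hP f g hf hg φ hφ)
    (plane_closed hP.toFormalClass hk _) (plane_closed hP.toFormalClass hk _)

end Pool.Agent.Helper71.QP
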